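import Pool.Agent.W996.EC.Cv
import Pool.Agent.Helper272.Arn.J5759

set_option autoImplicit false

namespace Pool.Agent.W114.ECR

open Polynomial Pool.Agent.W996.EC

theorem coprime_aux {K : Type*} [Field K] (f g : K[X]) (hf : Irreducible f) (h : ¬ f ∣ g) :
    IsCoprime f g := (hf.coprime_iff_not_dvd).2 h

theorem t_res : S_res := by
  intro F G hF hd hG
  classical
  set φ := algebraMap ℂ[X] (FractionRing ℂ[X]) with hφ
  have hφi : Function.Injective φ := IsFractionRing.injective ℂ[X] (FractionRing ℂ[X])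
  have hmi : Function.Injective (Polynomial.map φ) := Polynomial.map_injective φ hφi
  have hprim : F.IsPrimitive := hF.isPrimitive (by omega)
  have hFK : Irreducible (F.map φ) :=
    (IsPrimitive.irreducible_iff_irreducible_map_fraction_map hprim).1 hF
  have hGK : ¬ F.map φ ∣ G.map φ := by
    rintro ⟨u, hu⟩
    obtain ⟨b, v, hb, hv⟩ := AR.J5759.clear_denom u
    have h1 : F * v = C b * G := by
      apply hmi
      rw [← hφ] at hv
      rw [Polynomial.map_mul, Polynomial.map_mul, Polynomial.map_C, hu, hv]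
      ring
    have hpr : Prime F := hF.prime
    rcases hpr.dvd_or_dvd ⟨v, h1.symm⟩ with h2 | h2
    · have h3 := Polynomial.natDegree_le_of_dvd h2 (by simpa using hb)
      rw [natDegree_C] at h3
      omega
    · exact hG h2
  obtain ⟨a, b, hab⟩ := coprime_aux _ _ hFK hGK
  obtain ⟨ba, va, hba, hva⟩ := AR.J5759.clear_denom a
  obtain ⟨bb, vb, hbb, hvb⟩ := AR.J5759.clear_denom b
  refine ⟨C bb * va, C ba * vb, bb * ba, mul_ne_zero hbb hba, ?_⟩
  apply hmi
  rw [← hφ] at hva hvb
  simp only [Polynomial.map_add, Polynomial.map_mul, Polynomial.map_C, hva, hvb, map_mul]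
  linear_combination (C (φ bb) * C (φ ba)) * hab

theorem t_cov : S_cov := by
  intro F h0 hF hd h00
  have hder : F.derivative ≠ 0 := by
    intro h
    have := Polynomial.derivative_eq_zero.1 h
    omega
  have hnd : ¬ F ∣ F.derivative := by
    intro h
    have h1 := Polynomial.natDegree_le_of_dvd h hder
    have h2 := Polynomial.natDegree_derivative_lt (p := F) (by omega)
    omega
  obtain ⟨a, b, ρ, hρ, hab⟩ := t_res F F.derivative hF hd hnd
  have hlc : F.leadingCoeff ≠ 0 := leadingCoeff_ne_zero.2 hF.ne_zero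
  refine ⟨h0 * ρ * F.leadingCoeff, ⟨ρ * F.leadingCoeff, by ring⟩, hF, hd,
    mul_ne_zero (mul_ne_zero h00 hρ) hlc, ?_⟩
  intro z hz
  rw [eval_mul, eval_mul] at hz
  have hz1 : ρ.eval z ≠ 0 := fun h => hz (by rw [h]; ring)
  have hz2 : F.leadingCoeff.eval z ≠ 0 := fun h => hz (by rw [h]; ring)
  refine ⟨natDegree_map_of_leadingCoeff_ne_zero _ (by simpa using hz2), ?_⟩
  refine ⟨C (ρ.eval z)⁻¹ * a.map (evalRingHom z), C (ρ.eval z)⁻¹ * b.map (evalRingHom z), ?_⟩
  have h1 := congrArg (Polynomial.map (evalRingHom z)) hab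
  simp only [Polynomial.map_add, Polynomial.map_mul, Polynomial.map_C, coe_evalRingHom] at h1
  rw [Polynomial.derivative_map]
  have h2 : (C (ρ.eval z)⁻¹ : ℂ[X]) * C (ρ.eval z) = 1 := by
    rw [← C_mul, inv_mul_cancel₀ hz1, C_1]
  linear_combination (C (ρ.eval z)⁻¹ : ℂ[X]) * h1 + h2

end Pool.Agent.W114.ECR
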