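import Pool.Agent.W996.EC.Cv
import Pool.Agent.Helper272.Arn.J5759
import Pool.Agent.W114.ECRes

set_option autoImplicit false

namespace Pool.Agent.W114.ECC

open Polynomial Pool.Agent.W996.EC Filter Topology Set

/-- entire functions of polynomial growth are polynomials -/
theorem poly_of_growth : ∀ (n : ℕ) (f : ℂ → ℂ), Differentiable ℂ f →
    (∃ C R : ℝ, ∀ z, R ≤ ‖z‖ → ‖f z‖ ≤ C * ‖z‖ ^ n) → ∃ p : ℂ[X], ∀ z, f z = p.eval z := by
  intro n
  induction n with
  | zero =>
    rintro f hf ⟨C, R, h⟩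
    have hb : Bornology.IsBounded (range f) := by
      obtain ⟨C', hC'⟩ := (isCompact_closedBall (0 : ℂ) R).exists_bound_of_continuousOn
        hf.continuous.continuousOn
      rw [isBounded_iff_forall_norm_le]
      refine ⟨max C C', ?_⟩
      rintro _ ⟨z, rfl⟩
      rcases le_total R ‖z‖ with hz | hz
      · exact ((h z hz).trans (by simp)).trans (le_max_left _ _)
      · exact (hC' z (by simpa using hz)).trans (le_max_right _ _)
    obtain ⟨c, hc⟩ := hf.exists_const_forall_eq_of_bounded hb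
    exact ⟨Polynomial.C c, fun z => by rw [hc z, Polynomial.eval_C]⟩
  | succ n ih =>
    rintro f hf ⟨C, R, h⟩
    have hg : Differentiable ℂ (dslope f 0) := by
      rw [← differentiableOn_univ]
      exact (Complex.differentiableOn_dslope univ_mem).mpr hf.differentiableOn
    have hfg : ∀ z, f z = f 0 + z * dslope f 0 z := by
      intro z
      have := sub_smul_dslope f 0 z
      rw [sub_zero, smul_eq_mul] at this
      rw [this]; ring
    obtain ⟨p, hp⟩ := ih (dslope f 0) hg ⟨C + ‖f 0‖, max R 1, fun z hz => by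
      have hz1 : 1 ≤ ‖z‖ := (le_max_right _ _).trans hz
      have hz0 : 0 < ‖z‖ := lt_of_lt_of_le one_pos hz1
      have h1 := h z ((le_max_left _ _).trans hz)
      have h2 : z * dslope f 0 z = f z - f 0 := by rw [hfg z]; ring
      have h3 : ‖z‖ * ‖dslope f 0 z‖ ≤ ‖z‖ * ((C + ‖f 0‖) * ‖z‖ ^ n) := by
        rw [← norm_mul, h2]
        have h4 : (1 : ℝ) ≤ ‖z‖ ^ (n + 1) := one_le_pow₀ hz1
        calc ‖f z - f 0‖ ≤ ‖f z‖ + ‖f 0‖ := norm_sub_le _ _
          _ ≤ C * ‖z‖ ^ (n + 1) + ‖f 0‖ * ‖z‖ ^ (n + 1) := by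
              have := mul_le_mul_of_nonneg_left h4 (norm_nonneg (f 0))
              linarith
          _ = ‖z‖ * ((C + ‖f 0‖) * ‖z‖ ^ n) := by ring
      exact le_of_mul_le_mul_left h3 hz0⟩
    refine ⟨Polynomial.C (f 0) + Polynomial.X * p, fun z => ?_⟩
    rw [hfg z, hp z]
    simp

theorem poly_bound (p : ℂ[X]) : ∃ C : ℝ, 0 ≤ C ∧ ∀ w : ℂ,
    ‖p.eval w‖ ≤ C * (1 + ‖w‖) ^ p.natDegree := by
  refine ⟨∑ i ∈ Finset.range (p.natDegree + 1), ‖p.coeff i‖,
    Finset.sum_nonneg fun _ _ => norm_nonneg _, fun w => ?_⟩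
  rw [Polynomial.eval_eq_sum_range, Finset.sum_mul]
  refine (norm_sum_le _ _).trans (Finset.sum_le_sum fun i hi => ?_)
  rw [norm_mul, norm_pow]
  have hi' : i ≤ p.natDegree := by
    have := Finset.mem_range.mp hi
    omega
  refine mul_le_mul_of_nonneg_left ?_ (norm_nonneg _)
  have h1 : ‖w‖ ^ i ≤ (1 + ‖w‖) ^ i := pow_le_pow_left₀ (norm_nonneg _) (by linarith [norm_nonneg w]) _
  exact h1.trans (pow_le_pow_right₀ (by linarith [norm_nonneg w]) hi')

theorem isOpen_ne (h : ℂ[X]) : IsOpen {z : ℂ | h.eval z ≠ 0} :=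
  isOpen_ne_fun h.continuous continuous_const

/-- rationality, two exponents -/
theorem rat2 (h : ℂ[X]) (f : ℂ → ℂ) (hh : h ≠ 0)
    (hf : DifferentiableOn ℂ f {z | h.eval z ≠ 0}) (K L : ℕ) (B : ℝ)
    (hB : ∀ z, h.eval z ≠ 0 → ‖f z‖ * ‖h.eval z‖ ^ K ≤ B * (1 + ‖z‖) ^ L) :
    ∃ a : ℂ[X], ∀ z, h.eval z ≠ 0 → f z * h.eval z ^ (K + 1) = a.eval z := by
  classical
  set E : ℂ → ℂ := fun z => if h.eval z = 0 then 0 else f z * h.eval z ^ (K + 1) with hE
  have hE1 : ∀ z, h.eval z ≠ 0 → E z = f z * h.eval z ^ (K + 1) := fun z hz => by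
    rw [hE]; simp only; rw [if_neg hz]
  have hE0 : ∀ z, h.eval z = 0 → E z = 0 := fun z hz => by
    rw [hE]; simp only; rw [if_pos hz]
  have hBd : ∀ z, ‖E z‖ ≤ |B| * (1 + ‖z‖) ^ L * ‖h.eval z‖ := by
    intro z
    by_cases hz : h.eval z = 0
    · rw [hE0 z hz, hz]; simp
    · rw [hE1 z hz, norm_mul, norm_pow, pow_succ, ← mul_assoc]
      refine mul_le_mul_of_nonneg_right ((hB z hz).trans ?_) (norm_nonneg _)
      exact mul_le_mul_of_nonneg_right (le_abs_self B) (by positivity)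
  have hopen : IsOpen {z : ℂ | h.eval z ≠ 0} := isOpen_ne h
  have hdiff : ∀ z, h.eval z ≠ 0 → DifferentiableAt ℂ E z := by
    intro z hz
    have h1 : DifferentiableAt ℂ (fun z => f z * h.eval z ^ (K + 1)) z :=
      ((hf z hz).differentiableAt (hopen.mem_nhds hz)).mul (h.differentiable.differentiableAt.pow _)
    refine h1.congr_of_eventuallyEq ?_
    filter_upwards [hopen.mem_nhds hz] with w hw
    exact hE1 w hw
  have hEd : Differentiable ℂ E := by
    intro z
    by_cases hz : h.eval z = 0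
    · refine (Complex.analyticAt_of_differentiable_on_punctured_nhds_of_continuousAt ?_ ?_).differentiableAt
      · have hfin : ({w : ℂ | h.eval w = 0} \ {z}).Finite := by
          refine Set.Finite.subset ?_ sdiff_subset
          have := h.rootSet_finite ℂ
          refine (h.roots.toFinset.finite_toSet).subset ?_
          intro w hw
          simp only [Finset.mem_coe, Multiset.mem_toFinset]
          exact (mem_roots hh).2 hw
        have h2 : ({w : ℂ | h.eval w = 0} \ {z})ᶜ ∈ 𝓝 z :=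
          hfin.isClosed.isOpen_compl.mem_nhds (by simp)
        filter_upwards [mem_nhdsWithin_of_mem_nhds h2, self_mem_nhdsWithin] with w hw1 hw2
        apply hdiff
        intro hw
        exact hw1 ⟨hw, hw2⟩
      · rw [ContinuousAt, hE0 z hz]
        have h3 : Tendsto (fun w : ℂ => |B| * (1 + ‖w‖) ^ L * ‖h.eval w‖) (𝓝 z) (𝓝 0) := by
          have h4 : Continuous (fun w : ℂ => |B| * (1 + ‖w‖) ^ L * ‖h.eval w‖) := by
            have := h.continuous
            fun_prop
          have h5 := h4.tendsto z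
          simpa [hz] using h5
        exact squeeze_zero_norm hBd h3
    · exact hdiff z hz
  obtain ⟨C, hC, hCb⟩ := poly_bound h
  obtain ⟨a, ha⟩ := poly_of_growth (L + h.natDegree) E hEd
    ⟨|B| * C * 2 ^ (L + h.natDegree), 1, fun z hz => by
      have h1 : (1 + ‖z‖) ≤ 2 * ‖z‖ := by linarith
      calc ‖E z‖ ≤ |B| * (1 + ‖z‖) ^ L * ‖h.eval z‖ := hBd z
        _ ≤ |B| * (1 + ‖z‖) ^ L * (C * (1 + ‖z‖) ^ h.natDegree) := by
            exact mul_le_mul_of_nonneg_left (hCb z) (by positivity)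
        _ = |B| * C * (1 + ‖z‖) ^ (L + h.natDegree) := by ring
        _ ≤ |B| * C * (2 * ‖z‖) ^ (L + h.natDegree) := by
            refine mul_le_mul_of_nonneg_left (pow_le_pow_left₀ (by positivity) h1 _) (by positivity)
        _ = _ := by rw [mul_pow]; ring⟩
  exact ⟨a, fun z hz => by rw [← hE1 z hz, ha z]⟩

theorem t_rat : S_rat := by
  rintro h f hh hf ⟨K, B, hB⟩
  obtain ⟨a, ha⟩ := rat2 h f hh hf K K B hB
  exact ⟨a, K + 1, ha⟩

/-- a polynomial all whose roots are roots of `h` divides a power of `h` -/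
theorem dvd_pow_of_roots (p h : ℂ[X]) (hp : p ≠ 0) (hr : ∀ z, p.eval z = 0 → h.eval z = 0) :
    ∃ M : ℕ, p ∣ h ^ M := by
  refine ⟨Multiset.card p.roots, ?_⟩
  have h1 : C p.leadingCoeff * (p.roots.map fun a => X - C a).prod = p :=
    C_leadingCoeff_mul_prod_multiset_X_sub_C
      (by rw [← (IsAlgClosed.splits p).natDegree_eq_card_roots])
  have h2 : (p.roots.map fun a => X - C a).prod ∣ (p.roots.map fun _ => h).prod := by
    apply Multiset.prod_dvd_prod_of_dvd
    intro a ha
    exact dvd_iff_isRoot.2 (hr a ((mem_roots hp).1 ha))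
  rw [Multiset.map_const', Multiset.prod_replicate] at h2
  have hlc : p.leadingCoeff ≠ 0 := leadingCoeff_ne_zero.2 hp
  have h3 : C p.leadingCoeff * (p.roots.map fun a => X - C a).prod ∣ h ^ Multiset.card p.roots := by
    rw [(isUnit_C.2 (isUnit_iff_ne_zero.2 hlc)).mul_left_dvd]
    exact h2
  rwa [h1] at h3

theorem coeff_prod_le (s : Finset ℂ) (b : ℝ) (hb : ∀ v ∈ s, ‖v‖ ≤ b) (hb0 : 0 ≤ b) (i : ℕ) :
    ‖(∏ v ∈ s, (X - C v)).coeff i‖ ≤ (1 + b) ^ s.card := by
  classical
  induction s using Finset.induction_on generalizing i with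
  | empty =>
    simp only [Finset.prod_empty, Finset.card_empty, pow_zero, coeff_one]
    split_ifs <;> simp
  | insert a s ha ih =>
    rw [Finset.prod_insert ha, Finset.card_insert_of_notMem ha, sub_mul]
    have ih' := ih (fun v hv => hb v (Finset.mem_insert_of_mem hv))
    have h1 : ‖(X * ∏ v ∈ s, (X - C v)).coeff i‖ ≤ (1 + b) ^ s.card := by
      rcases i with _ | i
      · rw [mul_coeff_zero]; simp; positivity
      · rw [coeff_X_mul]; exact ih' i
    rw [coeff_sub, coeff_C_mul]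
    refine (norm_sub_le _ _).trans ?_
    rw [norm_mul]
    have h2 : ‖a‖ * ‖(∏ v ∈ s, (X - C v)).coeff i‖ ≤ b * (1 + b) ^ s.card :=
      mul_le_mul (hb a (Finset.mem_insert_self _ _)) (ih' i) (norm_nonneg _) hb0
    calc _ ≤ (1 + b) ^ s.card + b * (1 + b) ^ s.card := add_le_add h1 h2
      _ = (1 + b) ^ (s.card + 1) := by ring

theorem preconn_ne (h : ℂ[X]) (hh : h ≠ 0) : IsPreconnected {z : ℂ | h.eval z ≠ 0} := by
  have h1 : {z : ℂ | h.eval z ≠ 0} = {z : ℂ | h.eval z = 0}ᶜ := rfl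
  rw [h1]
  have hfin : {w : ℂ | h.eval w = 0}.Finite := by
    refine (h.roots.toFinset.finite_toSet).subset ?_
    intro w hw
    simp only [Finset.mem_coe, Multiset.mem_toFinset]
    exact (mem_roots hh).2 hw
  exact (hfin.countable.isConnected_compl_of_one_lt_rank
    (by rw [Complex.rank_real_complex]; norm_num)).isPreconnected

theorem eval_ne_zero_exists (p : ℂ[X]) (hp : p ≠ 0) : ∃ z, p.eval z ≠ 0 := by
  by_contra hcon
  push Not at hcon
  exact hp (Polynomial.funext fun z => by rw [hcon z, eval_zero])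

/-- the roots over `z` in the open set `u` -/
noncomputable def RR (F : ℂ[X][X]) (u : Set (ℂ × ℂ)) (z : ℂ) : Finset ℂ :=
  open Classical in (F.map (evalRingHom z)).roots.toFinset.filter (fun v => (z, v) ∈ u)

theorem mem_RR (F : ℂ[X][X]) (h : ℂ[X]) (hC : Cov F h) (u : Set (ℂ × ℂ)) (z : ℂ)
    (hz : h.eval z ≠ 0) (v : ℂ) : v ∈ RR F u z ↔ F.evalEval z v = 0 ∧ (z, v) ∈ u := by
  classical
  have h0 : F.map (evalRingHom z) ≠ 0 := by
    intro h0
    have := (hC.good z hz).1
    rw [h0, natDegree_zero] at this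
    have := hC.deg
    omega
  unfold RR
  rw [Finset.mem_filter, Multiset.mem_toFinset, mem_roots h0, IsRoot.def, map_evalRingHom_eval]

/-- local description of the roots in `u` -/
theorem loc_RR (F : ℂ[X][X]) (h : ℂ[X]) (hC : Cov F h) (u v : Set (ℂ × ℂ)) (hu : IsOpen u)
    (hv : IsOpen v) (huv : TT F h ⊆ u ∪ v) (hdis : TT F h ∩ (u ∩ v) = ∅) (z0 : ℂ)
    (hz0 : h.eval z0 ≠ 0) : ∃ (ρ : ℝ) (α : Fin F.natDegree → ℂ → ℂ) (J : Finset (Fin F.natDegree)),
      0 < ρ ∧ (∀ z ∈ Metric.ball z0 ρ, h.eval z ≠ 0) ∧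
      (∀ j, DifferentiableOn ℂ (α j) (Metric.ball z0 ρ)) ∧
      (∀ z ∈ Metric.ball z0 ρ, Function.Injective fun j => α j z) ∧
      ∀ z ∈ Metric.ball z0 ρ, RR F u z = J.image (fun j => α j z) := by
  classical
  obtain ⟨ρ, hρ, hb⟩ := Metric.isOpen_iff.1 (isOpen_ne h) z0 hz0
  have hb' : ∀ z ∈ Metric.ball z0 ρ, h.eval z ≠ 0 := fun z hz => hb hz
  obtain ⟨α, hα1, hα2, hα3⟩ := AR.J5652.root_functions (H := Metric.ball z0 ρ) Metric.isOpen_ball
    (convex_ball z0 ρ) F.natDegree (fun z => F.map (evalRingHom z))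
    (fun i => by
      simp only [coeff_map, coe_evalRingHom]
      exact (F.coeff i).differentiable.differentiableOn)
    (fun z hz => (hC.good z (hb' z hz)).1) (fun z hz => (hC.good z (hb' z hz)).2)
  have himg : ∀ j, (fun z => (z, α j z)) '' (Metric.ball z0 ρ) ⊆ u ∨
      (fun z => (z, α j z)) '' (Metric.ball z0 ρ) ⊆ v := by
    intro j
    have h1 : (fun z => (z, α j z)) '' (Metric.ball z0 ρ) ⊆ TT F h := by
      rintro _ ⟨z, hz, rfl⟩
      refine ⟨?_, hb' z hz⟩
      have := (hα3 z hz (α j z)).2 ⟨j, rfl⟩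
      rwa [map_evalRingHom_eval] at this
    have h2 : IsPreconnected ((fun z => (z, α j z)) '' (Metric.ball z0 ρ)) :=
      (convex_ball z0 ρ).isPreconnected.image _
        (continuousOn_id.prodMk (hα1 j).continuousOn)
    refine (isPreconnected_iff_subset_of_disjoint.1 h2) u v hu hv (h1.trans huv) ?_
    apply Set.eq_empty_of_subset_empty
    rw [← hdis]
    exact Set.inter_subset_inter_left _ h1
  refine ⟨ρ, α, Finset.univ.filter fun j => (fun z => (z, α j z)) '' (Metric.ball z0 ρ) ⊆ u, hρ,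
    hb', hα1, hα2, ?_⟩
  intro z hz
  ext w
  rw [mem_RR F h hC u z (hb' z hz), Finset.mem_image]
  constructor
  · rintro ⟨h1, h2⟩
    obtain ⟨j, hj⟩ := (hα3 z hz w).1 (by rwa [map_evalRingHom_eval])
    refine ⟨j, ?_, hj.symm⟩
    rw [Finset.mem_filter]
    refine ⟨Finset.mem_univ _, ?_⟩
    rcases himg j with h3 | h3
    · exact h3
    · exfalso
      have h4 : (z, w) ∈ v := h3 ⟨z, hz, by rw [hj]⟩
      have h5 : (z, w) ∈ TT F h ∩ (u ∩ v) := ⟨⟨h1, hb' z hz⟩, h2, h4⟩
      rw [hdis] at h5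
      exact h5
  · rintro ⟨j, hj, rfl⟩
    rw [Finset.mem_filter] at hj
    refine ⟨?_, hj.2 ⟨z, hz, rfl⟩⟩
    have := (hα3 z hz (α j z)).2 ⟨j, rfl⟩
    rwa [map_evalRingHom_eval] at this

theorem root_growth (F : ℂ[X][X]) (h : ℂ[X]) (hC : Cov F h) : ∃ (M L : ℕ) (B : ℝ), 0 ≤ B ∧
    ∀ z, h.eval z ≠ 0 → ∃ b : ℝ, 0 ≤ b ∧ (∀ v, F.evalEval z v = 0 → ‖v‖ ≤ b) ∧
      (1 + b) * ‖h.eval z‖ ^ M ≤ B * (1 + ‖z‖) ^ L := by
  have hF0 : F ≠ 0 := hC.irr.ne_zero
  have hlc : F.leadingCoeff ≠ 0 := leadingCoeff_ne_zero.2 hF0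
  obtain ⟨M, q, hq⟩ := dvd_pow_of_roots F.leadingCoeff h hlc (by
    intro z hz
    by_contra hne
    obtain ⟨h1, h2⟩ := hC.good z hne
    have h3 : (F.map (evalRingHom z)).coeff F.natDegree = 0 := by
      rw [coeff_map, coe_evalRingHom]; exact hz
    have h4 : (F.map (evalRingHom z)).leadingCoeff = 0 := by
      rw [leadingCoeff, h1]; exact h3
    rw [leadingCoeff_eq_zero] at h4
    rw [h4, natDegree_zero] at h1
    have := hC.deg
    omega)
  choose Cc hCc hCb using fun p : ℂ[X] => poly_bound p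
  set L : ℕ := M * h.natDegree + (∑ i ∈ Finset.range F.natDegree, (F.coeff i).natDegree) +
    q.natDegree with hL
  have hb : ∀ z, h.eval z ≠ 0 → F.leadingCoeff.eval z ≠ 0 ∧
      ‖F.leadingCoeff.eval z‖⁻¹ * ‖h.eval z‖ ^ M = ‖q.eval z‖ := by
    intro z hz
    have h1 := congrArg (Polynomial.eval z) hq
    rw [eval_pow, eval_mul] at h1
    have h2 : F.leadingCoeff.eval z ≠ 0 := by
      intro h0
      rw [h0, zero_mul] at h1
      rcases Nat.eq_zero_or_pos M with h3 | h3
      · rw [h3, pow_zero] at h1; exact absurd h1 one_ne_zero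
      · exact hz ((pow_eq_zero_iff h3.ne').1 h1)
    refine ⟨h2, ?_⟩
    rw [← norm_pow, h1, norm_mul, ← mul_assoc, inv_mul_cancel₀ (norm_ne_zero_iff.2 h2), one_mul]
  refine ⟨M, L, 2 * (Cc h) ^ M + (∑ i ∈ Finset.range F.natDegree, Cc (F.coeff i)) * Cc q, ?_, ?_⟩
  · have h1 := hCc h
    have h2 : 0 ≤ ∑ i ∈ Finset.range F.natDegree, Cc (F.coeff i) :=
      Finset.sum_nonneg fun i _ => hCc _
    have h3 := hCc q
    positivity
  intro z hz
  obtain ⟨h2, h3⟩ := hb z hz
  refine ⟨1 + (∑ i ∈ Finset.range F.natDegree, ‖(F.coeff i).eval z‖) / ‖F.leadingCoeff.eval z‖,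
    by positivity, ?_, ?_⟩
  · intro v hv
    have h4 : (F.map (evalRingHom z)).leadingCoeff = F.leadingCoeff.eval z := by
      rw [leadingCoeff, (hC.good z hz).1, coeff_map, coe_evalRingHom]; rfl
    have h5 := AR.J5759.pz_root_bound (F.map (evalRingHom z)) v
      (by rw [map_evalRingHom_eval]; exact hv) (by rw [h4]; exact norm_pos_iff.2 h2)
    rw [h4, (hC.good z hz).1] at h5
    simpa only [coeff_map, coe_evalRingHom] using h5
  · have hz1 : 1 ≤ 1 + ‖z‖ := by linarith [norm_nonneg z]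
    have e1 : (1 + (1 + (∑ i ∈ Finset.range F.natDegree, ‖(F.coeff i).eval z‖) /
        ‖F.leadingCoeff.eval z‖)) * ‖h.eval z‖ ^ M =
        2 * ‖h.eval z‖ ^ M + (∑ i ∈ Finset.range F.natDegree, ‖(F.coeff i).eval z‖) *
          ‖q.eval z‖ := by
      rw [← h3]; ring
    rw [e1, add_mul]
    refine add_le_add ?_ ?_
    · rw [mul_assoc]
      refine mul_le_mul_of_nonneg_left ?_ (by norm_num)
      calc ‖h.eval z‖ ^ M ≤ (Cc h * (1 + ‖z‖) ^ h.natDegree) ^ M :=
            pow_le_pow_left₀ (norm_nonneg _) (hCb h z) _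
        _ = Cc h ^ M * (1 + ‖z‖) ^ (M * h.natDegree) := by
            rw [mul_pow, ← pow_mul, mul_comm h.natDegree M]
        _ ≤ _ := mul_le_mul_of_nonneg_left (pow_le_pow_right₀ hz1 (by rw [hL]; omega))
            (pow_nonneg (hCc h) _)
    · have e2 : ∑ i ∈ Finset.range F.natDegree, ‖(F.coeff i).eval z‖ ≤
          (∑ i ∈ Finset.range F.natDegree, Cc (F.coeff i)) *
            (1 + ‖z‖) ^ (∑ i ∈ Finset.range F.natDegree, (F.coeff i).natDegree) := by
        rw [Finset.sum_mul]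
        refine Finset.sum_le_sum fun i hi => (hCb (F.coeff i) z).trans ?_
        refine mul_le_mul_of_nonneg_left (pow_le_pow_right₀ hz1 ?_) (hCc _)
        exact Finset.single_le_sum (f := fun i => (F.coeff i).natDegree)
          (fun i _ => Nat.zero_le _) hi
      calc (∑ i ∈ Finset.range F.natDegree, ‖(F.coeff i).eval z‖) * ‖q.eval z‖
          ≤ ((∑ i ∈ Finset.range F.natDegree, Cc (F.coeff i)) *
            (1 + ‖z‖) ^ (∑ i ∈ Finset.range F.natDegree, (F.coeff i).natDegree)) *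
            (Cc q * (1 + ‖z‖) ^ q.natDegree) :=
            mul_le_mul e2 (hCb q z) (norm_nonneg _) (by
              have : 0 ≤ ∑ i ∈ Finset.range F.natDegree, Cc (F.coeff i) :=
                Finset.sum_nonneg fun i _ => hCc _
              positivity)
        _ = ((∑ i ∈ Finset.range F.natDegree, Cc (F.coeff i)) * Cc q) *
            (1 + ‖z‖) ^ ((∑ i ∈ Finset.range F.natDegree, (F.coeff i).natDegree) +
              q.natDegree) := by rw [pow_add]; ring
        _ ≤ _ := by
            refine mul_le_mul_of_nonneg_left (pow_le_pow_right₀ hz1 (by rw [hL]; omega)) ?_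
            exact mul_nonneg (Finset.sum_nonneg fun i _ => hCc _) (hCc _)

theorem t_conn : S_conn := by
  classical
  intro F h hC
  rw [isPreconnected_iff_subset_of_disjoint]
  intro u v hu hv huv hdis
  by_contra hcon
  push Not at hcon
  obtain ⟨hnu, hnv⟩ := hcon
  obtain ⟨p1, hp1T, hp1u⟩ := Set.not_subset.1 hnu
  obtain ⟨p0, hp0T, hp0v⟩ := Set.not_subset.1 hnv
  have hp0u : p0 ∈ u := (huv hp0T).resolve_right hp0v
  have hF0 : F ≠ 0 := hC.irr.ne_zero
  -- the number of roots in `u` is constant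
  set H : Set ℂ := {z : ℂ | h.eval z ≠ 0} with hH
  have hHo : IsOpen H := isOpen_ne h
  have hHc : IsPreconnected H := preconn_ne h hC.hne
  have hloc := loc_RR F h hC u v hu hv huv hdis
  have hcard : ContinuousOn (fun z => (RR F u z).card) H := by
    intro z0 hz0
    obtain ⟨ρ, α, J, hρ, h1, h2, h3, h4⟩ := hloc z0 hz0
    apply ContinuousAt.continuousWithinAt
    have h5 : (fun z => (RR F u z).card) =ᶠ[𝓝 z0] fun _ => J.card := by
      filter_upwards [Metric.ball_mem_nhds z0 hρ] with z hz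
      rw [h4 z hz, Finset.card_image_of_injective _ (h3 z hz)]
    exact (continuousAt_const).congr h5.symm
  set k : ℕ := (RR F u p0.1).card with hk
  have hkc : ∀ z ∈ H, (RR F u z).card = k := fun z hz => hHc.constant hcard hz hp0T.2
  have hk1 : 1 ≤ k := by
    rw [hk, Nat.one_le_iff_ne_zero, Finset.card_ne_zero]
    exact ⟨p0.2, (mem_RR F h hC u p0.1 hp0T.2 p0.2).2 ⟨hp0T.1, hp0u⟩⟩
  have hkd : k < F.natDegree := by
    rw [← hkc p1.1 hp1T.2]
    have hnz : F.map (evalRingHom p1.1) ≠ 0 := by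
      intro h0
      have := (hC.good p1.1 hp1T.2).1
      rw [h0, natDegree_zero] at this
      have := hC.deg
      omega
    have hmem : p1.2 ∈ (F.map (evalRingHom p1.1)).roots.toFinset := by
      rw [Multiset.mem_toFinset, mem_roots hnz, IsRoot.def, map_evalRingHom_eval]
      exact hp1T.1
    have hss : RR F u p1.1 ⊂ (F.map (evalRingHom p1.1)).roots.toFinset := by
      refine (Finset.ssubset_iff_of_subset (Finset.filter_subset _ _)).2 ⟨p1.2, hmem, ?_⟩
      intro hx
      exact hp1u ((mem_RR F h hC u p1.1 hp1T.2 p1.2).1 hx).2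
    calc (RR F u p1.1).card < (F.map (evalRingHom p1.1)).roots.toFinset.card :=
          Finset.card_lt_card hss
      _ ≤ Multiset.card (F.map (evalRingHom p1.1)).roots := Multiset.toFinset_card_le _
      _ ≤ (F.map (evalRingHom p1.1)).natDegree := card_roots' _
      _ = F.natDegree := (hC.good p1.1 hp1T.2).1
  -- the coefficients of the product
  set G : ℂ → ℂ[X] := fun z => ∏ w ∈ RR F u z, (X - C w) with hG
  have hGd : ∀ i, DifferentiableOn ℂ (fun z => (G z).coeff i) H := by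
    intro i z0 hz0
    obtain ⟨ρ, α, J, hρ, h1, h2, h3, h4⟩ := hloc z0 hz0
    have h5 : ∀ (J : Finset (Fin F.natDegree)) (i : ℕ), DifferentiableOn ℂ
        (fun z => (∏ j ∈ J, (X - C (α j z))).coeff i) (Metric.ball z0 ρ) := by
      intro J
      induction J using Finset.induction_on with
      | empty => intro i; simp
      | insert a J ha ih =>
        intro i
        have h6 : (fun z => (∏ j ∈ insert a J, (X - C (α j z))).coeff i) = fun z =>
            (X * ∏ j ∈ J, (X - C (α j z))).coeff i -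
              α a z * (∏ j ∈ J, (X - C (α j z))).coeff i := by
          funext z
          rw [Finset.prod_insert ha, sub_mul, coeff_sub, coeff_C_mul]
        rw [h6]
        refine DifferentiableOn.sub ?_ ((h2 a).mul (ih i))
        rcases i with _ | i
        · simp
        · simp only [coeff_X_mul]; exact ih i
    have h6 : ∀ z ∈ Metric.ball z0 ρ, (G z).coeff i = (∏ j ∈ J, (X - C (α j z))).coeff i := by
      intro z hz
      rw [hG]; simp only
      rw [h4 z hz, Finset.prod_image (fun a _ b _ hab => h3 z hz hab)]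
    have h7 : DifferentiableAt ℂ (fun z => (G z).coeff i) z0 := by
      refine ((h5 J i).differentiableAt (Metric.ball_mem_nhds z0 hρ)).congr_of_eventuallyEq ?_
      filter_upwards [Metric.ball_mem_nhds z0 hρ] with z hz
      exact h6 z hz
    exact h7.differentiableWithinAt
  obtain ⟨M, L, B, hB0, hB⟩ := root_growth F h hC
  have hGb : ∀ i, ∀ z, h.eval z ≠ 0 →
      ‖(G z).coeff i‖ * ‖h.eval z‖ ^ (M * k) ≤ B ^ k * (1 + ‖z‖) ^ (L * k) := by
    intro i z hz
    obtain ⟨b, hb0, hb1, hb2⟩ := hB z hz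
    have h1 := coeff_prod_le (RR F u z) b
      (fun w hw => hb1 w ((mem_RR F h hC u z hz w).1 hw).1) hb0 i
    rw [hkc z hz] at h1
    calc ‖(G z).coeff i‖ * ‖h.eval z‖ ^ (M * k) ≤ (1 + b) ^ k * ‖h.eval z‖ ^ (M * k) :=
          mul_le_mul_of_nonneg_right h1 (by positivity)
      _ = ((1 + b) * ‖h.eval z‖ ^ M) ^ k := by rw [mul_pow, ← pow_mul]
      _ ≤ (B * (1 + ‖z‖) ^ L) ^ k := pow_le_pow_left₀ (by positivity) hb2 _
      _ = _ := by rw [mul_pow, ← pow_mul]
  choose a ha using fun i => rat2 h (fun z => (G z).coeff i) hC.hne (hGd i) (M * k) (L * k)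
    (B ^ k) (hGb i)
  set N : ℕ := M * k + 1 with hN
  set GG : ℂ[X][X] := (∑ i ∈ Finset.range k, C (a i) * X ^ i) + C (h ^ N) * X ^ k with hGG
  have hdegG : ∀ z ∈ H, (G z).natDegree = k := by
    intro z hz
    rw [hG]; simp only
    rw [natDegree_prod_of_monic _ _ (fun w _ => monic_X_sub_C w)]
    simp [hkc z hz]
  have hmonG : ∀ z, (G z).Monic := fun z => monic_prod_of_monic _ _ fun w _ => monic_X_sub_C w
  have hev : ∀ z ∈ H, ∀ w, GG.evalEval z w = h.eval z ^ N * (G z).eval w := by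
    intro z hz w
    have h1 : (G z).eval w = (∑ i ∈ Finset.range k, (G z).coeff i * w ^ i) + w ^ k := by
      rw [eval_eq_sum_range, hdegG z hz, Finset.sum_range_succ]
      have : (G z).coeff k = 1 := by
        have := (hmonG z).coeff_natDegree
        rwa [hdegG z hz] at this
      rw [this, one_mul]
    rw [h1, hGG, evalEval_add, evalEval_mul, evalEval_C, evalEval_pow, evalEval_X, eval_pow,
      evalEval_finsetSum, mul_add, Finset.mul_sum]
    congr 1
    refine Finset.sum_congr rfl fun i _ => ?_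
    rw [evalEval_mul, evalEval_C, evalEval_pow, evalEval_X, ← ha i z hz]
    ring
  have hdeg1 : GG.natDegree = k := by
    rw [hGG]
    have h1 : (∑ i ∈ Finset.range k, C (a i) * X ^ i : ℂ[X][X]).degree < (k : ℕ) := by
      refine (degree_sum_le _ _).trans_lt ?_
      rw [Finset.sup_lt_iff (by exact_mod_cast WithBot.bot_lt_coe k)]
      intro i hi
      exact (degree_C_mul_X_pow_le i _).trans_lt (by exact_mod_cast Finset.mem_range.1 hi)
    have h2 : (C (h ^ N) * X ^ k : ℂ[X][X]).degree = k :=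
      degree_C_mul_X_pow k (pow_ne_zero _ hC.hne)
    have h3 := degree_add_eq_right_of_degree_lt (lt_of_lt_of_eq h1 h2.symm)
    rw [h2] at h3
    exact natDegree_eq_of_degree_eq_some h3
  have hGG0 : GG ≠ 0 := by
    intro h0
    rw [h0, natDegree_zero] at hdeg1
    omega
  have hndvd : ¬ F ∣ GG := by
    intro hd
    have := natDegree_le_of_dvd hd hGG0
    omega
  obtain ⟨a', b', ρ, hρ, hab⟩ := ECR.t_res F GG hC.irr hC.deg hndvd
  obtain ⟨z, hz⟩ := eval_ne_zero_exists (ρ * h) (mul_ne_zero hρ hC.hne)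
  rw [eval_mul] at hz
  have hzh : h.eval z ≠ 0 := right_ne_zero_of_mul hz
  have hne : (RR F u z).Nonempty := by
    rw [← Finset.card_pos, hkc z hzh]; omega
  obtain ⟨w, hw⟩ := hne
  have h1 := congrArg (fun p : ℂ[X][X] => p.evalEval z w) hab
  simp only [evalEval_add, evalEval_mul, evalEval_C] at h1
  rw [((mem_RR F h hC u z hzh w).1 hw).1, hev z hzh w] at h1
  have h2 : (G z).eval w = 0 := by
    rw [hG]; simp only
    rw [eval_prod]
    exact Finset.prod_eq_zero hw (by simp)
  rw [h2] at h1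
  simp only [mul_zero, add_zero] at h1
  exact left_ne_zero_of_mul hz h1.symm

end Pool.Agent.W114.ECC
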