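import Mathlib

set_option autoImplicit false

open Finset Filter Topology

namespace Pool.Agent.W114.TD

/-- The edge `e` is monochromatic under `c`. -/
def Mono {V α : Type*} (c : V → α) (e : Sym2 V) : Prop := (Sym2.map c e).IsDiag

lemma mono_mk {V α : Type*} (c : V → α) (x y : V) : Mono c s(x, y) ↔ c x = c y := by
  simp [Mono]

lemma mono_update {V α : Type*} [DecidableEq V] (c : V → α) (x : V) (a : α) (e : Sym2 V)
    (h : x ∉ e) : Mono (Function.update c x a) e ↔ Mono c e := by
  unfold Mono
  rw [Sym2.map_congr (f := Function.update c x a) (g := c)]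
  intro v hv
  have : v ≠ x := by rintro rfl; exact h hv
  simp [this]

open Classical in
/-- The number of maps `c : V → Fin M` for which all edges in `S` are monochromatic. -/
noncomputable def mc (V : Type) [Fintype V] (M : ℕ) (S : Finset (Sym2 V)) : ℕ :=
  (univ.filter (fun c : V → Fin M => ∀ e ∈ S, Mono c e)).card

lemma mc_mono {V : Type} [Fintype V] (M : ℕ) {S S' : Finset (Sym2 V)} (h : S ⊆ S') :
    mc V M S' ≤ mc V M S := by
  classical
  unfold mc
  apply card_le_card
  intro c hc
  simp only [mem_filter, mem_univ, true_and] at hc ⊢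
  exact fun e he => hc e (h he)

lemma leaf {V : Type} [Fintype V] [DecidableEq V] (M : ℕ) (S : Finset (Sym2 V)) (x y : V)
    (hxy : x ≠ y) (h : ∀ e ∈ S, x ∉ e) :
    M * mc V M (insert s(x, y) S) = mc V M S := by
  classical
  unfold mc
  have hcard : ∀ m : ℕ, M * m = (univ : Finset (Fin M)).card * m := by
    intro m; rw [card_univ, Fintype.card_fin]
  rw [hcard, ← card_product]
  apply Finset.card_nbij' (fun ac : Fin M × (V → Fin M) => Function.update ac.2 x ac.1)
    (fun c : V → Fin M => (c x, Function.update c x (c y)))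
  · rintro ⟨a, c⟩ hac
    simp only [coe_product, coe_univ, coe_filter, mem_univ, true_and, Set.mem_prod, Set.mem_univ,
      Set.mem_ofPred_eq, Finset.forall_mem_insert] at hac ⊢
    intro e he
    rw [mono_update _ _ _ _ (h e he)]
    exact hac.2 e he
  · intro c hc
    simp only [coe_product, coe_univ, coe_filter, mem_univ, true_and, Set.mem_prod, Set.mem_univ,
      Set.mem_ofPred_eq, Finset.forall_mem_insert] at hc ⊢
    constructor
    · rw [mono_mk]
      simp [hxy.symm]
    · intro e he
      rw [mono_update _ _ _ _ (h e he)]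
      exact hc e he
  · rintro ⟨a, c⟩ hac
    simp only [coe_product, coe_univ, coe_filter, mem_univ, true_and, Set.mem_prod, Set.mem_univ,
      Set.mem_ofPred_eq, Finset.forall_mem_insert, mono_mk] at hac ⊢
    simp only [Function.update_self, Function.update_idem, Prod.mk.injEq, true_and]
    rw [Function.update_of_ne hxy.symm, ← hac.1]
    simp
  · intro c hc
    simp

/-- `S` behaves like a forest. -/
def Good (V : Type) [Fintype V] (M : ℕ) (S : Finset (Sym2 V)) : Prop :=
  mc V M S * M ^ S.card = M ^ Fintype.card V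

lemma good_insert {V : Type} [Fintype V] [DecidableEq V] {M : ℕ} {S : Finset (Sym2 V)} {x y : V}
    (hxy : x ≠ y) (h : ∀ e ∈ S, x ∉ e) (hS : Good V M S) : Good V M (insert s(x, y) S) := by
  unfold Good at *
  have hn : s(x, y) ∉ S := fun hh => h _ hh (Sym2.mem_mk_left x y)
  rw [card_insert_of_notMem hn, ← hS, ← leaf M S x y hxy h]
  ring

lemma good_empty (V : Type) [Fintype V] (M : ℕ) : Good V M ∅ := by
  classical
  simp [Good, mc]

lemma good_one {V : Type} [Fintype V] (M : ℕ) (e : Sym2 V) (he : ¬ e.IsDiag) :
    Good V M {e} := by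
  classical
  induction e using Sym2.ind with
  | _ x y =>
    have hxy : x ≠ y := by simpa using he
    rw [← insert_empty_eq]
    exact good_insert hxy (by simp) (good_empty V M)

lemma good_two {V : Type} [Fintype V] [DecidableEq V] (M : ℕ) (e e' : Sym2 V) (he : ¬ e.IsDiag)
    (he' : ¬ e'.IsDiag) (hne : e ≠ e') :
    Good V M {e, e'} := by
  induction e using Sym2.ind with
  | _ x y =>
    have hxy : x ≠ y := by simpa using he
    by_cases hx : x ∈ e'
    · by_cases hy : y ∈ e'
      · exfalso
        apply hne
        exact ((Sym2.mem_and_mem_iff hxy).1 ⟨hx, hy⟩).symm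
      · rw [Sym2.eq_swap]
        exact good_insert hxy.symm (by simpa using hy) (good_one M e' he')
    · exact good_insert hxy (by simpa using hx) (good_one M e' he')

lemma good_of_card_le_two {V : Type} [Fintype V] [DecidableEq V] (M : ℕ) (S : Finset (Sym2 V))
    (hS : ∀ e ∈ S, ¬ e.IsDiag) (hc : S.card ≤ 2) : Good V M S := by
  interval_cases h : S.card
  · rw [card_eq_zero] at h
    rw [h]; exact good_empty V M
  · rw [card_eq_one] at h
    obtain ⟨e, rfl⟩ := h
    exact good_one M e (hS e (by simp))
  · rw [card_eq_two] at h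
    obtain ⟨e, e', hne, rfl⟩ := h
    exact good_two M e e' (hS e (by simp)) (hS e' (by simp)) hne

/-- `S` is the edge set of a triangle. -/
def IsTri {V : Type} [DecidableEq V] (S : Finset (Sym2 V)) : Prop :=
  ∃ a b c : V, a ≠ b ∧ b ≠ c ∧ a ≠ c ∧ S = {s(a, b), s(b, c), s(a, c)}

lemma good_or_tri_of_card_three {V : Type} [Fintype V] [DecidableEq V] (M : ℕ)
    (S : Finset (Sym2 V)) (hS : ∀ e ∈ S, ¬ e.IsDiag) (hc : S.card = 3) :
    Good V M S ∨ IsTri S := by
  by_cases hl : ∃ e ∈ S, ∃ x ∈ e, ∀ e' ∈ S.erase e, x ∉ e'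
  · left
    obtain ⟨e, he, x, hx, hx'⟩ := hl
    obtain ⟨y, rfl⟩ := Sym2.mem_iff_exists.1 hx
    have hxy : x ≠ y := by simpa using hS _ he
    rw [← insert_erase he]
    apply good_insert hxy hx'
    apply good_of_card_le_two
    · intro e' he'
      exact hS e' (mem_of_mem_erase he')
    · rw [card_erase_of_mem he, hc]
  · right
    push Not at hl
    rw [card_eq_three] at hc
    obtain ⟨e1, e2, e3, h12, h13, h23, rfl⟩ := hc
    have key : ∀ (e1 e2 e3 : Sym2 V), e1 ≠ e2 → e1 ≠ e3 → e2 ≠ e3 →
        (∀ e ∈ ({e1, e2, e3} : Finset (Sym2 V)), ¬ e.IsDiag) →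
        (∀ e ∈ ({e1, e2, e3} : Finset (Sym2 V)), ∀ x ∈ e,
          ∃ e' ∈ ({e1, e2, e3} : Finset (Sym2 V)).erase e, x ∈ e') →
        ∀ a b, e1 = s(a, b) → a ∈ e2 → b ∈ e3 → IsTri ({e1, e2, e3} : Finset (Sym2 V)) := by
      intro e1 e2 e3 h12 h13 h23 hS hl a b he1 ha2 hb3
      subst he1
      have hab : a ≠ b := by simpa using hS s(a, b) (by simp)
      obtain ⟨c, rfl⟩ := Sym2.mem_iff_exists.1 ha2
      obtain ⟨d, rfl⟩ := Sym2.mem_iff_exists.1 hb3
      have hac : a ≠ c := by simpa using hS s(a, c) (by simp)
      have hbd : b ≠ d := by simpa using hS s(b, d) (by simp)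
      have hcb : c ≠ b := by rintro rfl; exact h12 rfl
      have hda : d ≠ a := by rintro rfl; exact h13 Sym2.eq_swap
      obtain ⟨e', he', hce'⟩ := hl s(a, c) (by simp) c (Sym2.mem_mk_right a c)
      have hcd : c = d := by
        simp only [mem_erase, ne_eq, mem_insert, mem_singleton] at he'
        rcases he'.2 with h | h | h
        · rw [h, Sym2.mem_iff] at hce'
          rcases hce' with h | h
          · exact absurd h.symm hac
          · exact absurd h hcb
        · exact absurd h he'.1
        · rw [h, Sym2.mem_iff] at hce'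
          rcases hce' with h | h
          · exact absurd h hcb
          · exact h
      subst hcd
      refine ⟨a, b, c, hab, hbd, hac, ?_⟩
      rw [Finset.pair_comm s(a, c) s(b, c)]
    induction e1 using Sym2.ind with
    | _ a b =>
    have hab : a ≠ b := by simpa using hS s(a, b) (by simp)
    have ha := hl s(a, b) (by simp) a (Sym2.mem_mk_left a b)
    have hb := hl s(a, b) (by simp) b (Sym2.mem_mk_right a b)
    have ha' : a ∈ e2 ∨ a ∈ e3 := by
      obtain ⟨e', he', hae'⟩ := ha
      simp only [mem_erase, ne_eq, mem_insert, mem_singleton] at he'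
      rcases he'.2 with h | h | h
      · exact absurd h he'.1
      · subst h; exact Or.inl hae'
      · subst h; exact Or.inr hae'
    have hb' : b ∈ e2 ∨ b ∈ e3 := by
      obtain ⟨e', he', hbe'⟩ := hb
      simp only [mem_erase, ne_eq, mem_insert, mem_singleton] at he'
      rcases he'.2 with h | h | h
      · exact absurd h he'.1
      · subst h; exact Or.inl hbe'
      · subst h; exact Or.inr hbe'
    rcases ha' with ha' | ha' <;> rcases hb' with hb' | hb'
    · exact absurd ((Sym2.mem_and_mem_iff hab).1 ⟨ha', hb'⟩).symm h12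
    · exact key _ _ _ h12 h13 h23 hS hl a b rfl ha' hb'
    · rw [Finset.pair_comm e2 e3] at hS hl ⊢
      exact key _ _ _ h13 h12 h23.symm hS hl a b rfl ha' hb'
    · exact absurd ((Sym2.mem_and_mem_iff hab).1 ⟨ha', hb'⟩).symm h13

lemma mc_tri {V : Type} [Fintype V] [DecidableEq V] (M : ℕ) (S : Finset (Sym2 V))
    (h : IsTri S) : mc V M S * M ^ 2 = M ^ Fintype.card V := by
  classical
  obtain ⟨a, b, c, hab, hbc, hac, rfl⟩ := h
  have h1 : mc V M {s(a, b), s(b, c), s(a, c)} = mc V M {s(a, b), s(b, c)} := by
    unfold mc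
    congr 1
    ext f
    simp only [mem_insert, mem_singleton, forall_eq_or_imp, forall_eq, mono_mk, mem_filter,
      mem_univ, true_and]
    constructor
    · tauto
    · rintro ⟨h1, h2⟩
      exact ⟨h1, h2, h1.trans h2⟩
  rw [h1]
  have hne : s(a, b) ≠ s(b, c) := by
    intro h
    rw [Sym2.eq_iff] at h
    rcases h with h | h
    · exact hab h.1
    · exact hac h.1
  have := good_two M s(a, b) s(b, c) (by simpa using hab) (by simpa using hbc) hne
  unfold Good at this
  rwa [card_pair hne] at this

lemma mc_big {V : Type} [Fintype V] [DecidableEq V] (M : ℕ) (S : Finset (Sym2 V))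
    (hS : ∀ e ∈ S, ¬ e.IsDiag) (hc : 4 ≤ S.card) : mc V M S * M ^ 3 ≤ M ^ Fintype.card V := by
  -- find a good 3-subset
  have : ∃ S' ⊆ S, S'.card = 3 ∧ Good V M S' := by
    obtain ⟨S1, hS1, hc1⟩ := exists_subset_card_eq (by omega : 3 ≤ S.card)
    rcases good_or_tri_of_card_three M S1 (fun e he => hS e (hS1 he)) hc1 with h | h
    · exact ⟨S1, hS1, hc1, h⟩
    · obtain ⟨a, b, c, hab, hbc, hac, rfl⟩ := h
      obtain ⟨e4, he4, he4'⟩ : ∃ e ∈ S, e ∉ ({s(a, b), s(b, c), s(a, c)} : Finset (Sym2 V)) := by
        by_contra hcon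
        push Not at hcon
        have := card_le_card hcon
        omega
      have hne : s(a, b) ≠ s(b, c) := by
        intro h
        rw [Sym2.eq_iff] at h
        rcases h with h | h
        · exact hab h.1
        · exact hac h.1
      obtain ⟨v, w, hvw, hv⟩ : ∃ v w, e4 = s(v, w) ∧ (v ≠ a ∧ v ≠ b ∧ v ≠ c) := by
        induction e4 using Sym2.ind with
        | _ v w =>
          have hvw : v ≠ w := by simpa using hS _ he4
          by_cases h1 : v ≠ a ∧ v ≠ b ∧ v ≠ c
          · exact ⟨v, w, rfl, h1⟩
          · by_cases h2 : w ≠ a ∧ w ≠ b ∧ w ≠ c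
            · exact ⟨w, v, Sym2.eq_swap, h2⟩
            · exfalso
              apply he4'
              simp only [mem_insert, mem_singleton, Sym2.eq_iff]
              have h1' : v = a ∨ v = b ∨ v = c := by tauto
              have h2' : w = a ∨ w = b ∨ w = c := by tauto
              rcases h1' with rfl | rfl | rfl <;> rcases h2' with rfl | rfl | rfl <;>
                first | exact absurd rfl hvw | simp
      refine ⟨{e4, s(a, b), s(b, c)}, ?_, ?_, ?_⟩
      · intro e he
        simp only [mem_insert, mem_singleton] at he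
        rcases he with rfl | rfl | rfl
        · exact he4
        · exact hS1 (by simp)
        · exact hS1 (by simp)
      · rw [card_insert_of_notMem, card_pair hne]
        intro hh
        apply he4'
        simp only [mem_insert, mem_singleton] at hh ⊢
        rcases hh with hh | hh
        · exact Or.inl hh
        · exact Or.inr (Or.inl hh)
      · subst hvw
        apply good_insert
        · simpa using hS _ he4
        · intro e he
          simp only [mem_insert, mem_singleton] at he
          rcases he with rfl | rfl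
          · simp [hv.1, hv.2.1]
          · simp [hv.2.1, hv.2.2]
        · exact good_two M _ _ (by simpa using hab) (by simpa using hbc) hne
  obtain ⟨S', hS', hc', hg⟩ := this
  unfold Good at hg
  rw [hc'] at hg
  rw [← hg]
  exact Nat.mul_le_mul_right _ (mc_mono M hS')

end Pool.Agent.W114.TD
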