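import Pool.Agent.W114.TDa

set_option autoImplicit false

open Finset Filter Topology

namespace Pool.Agent.W114.TD

lemma tendsto_pow_exp (u : ℕ → ℝ) (N : ℕ → ℕ) (t : ℝ)
    (h1 : Tendsto u atTop (𝓝 1)) (h2 : Tendsto (fun M => (N M : ℝ) * (u M - 1)) atTop (𝓝 t)) :
    Tendsto (fun M => u M ^ N M) atTop (𝓝 (Real.exp t)) := by
  have hpos : ∀ᶠ M in atTop, 0 < u M := h1.eventually_const_lt one_pos
  have hlog : Tendsto (fun M => (N M : ℝ) * Real.log (u M)) atTop (𝓝 t) := by
    have h3 : Tendsto (fun M => (N M : ℝ) * (u M - 1) * (u M)⁻¹) atTop (𝓝 t) := by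
      simpa using h2.mul (h1.inv₀ one_ne_zero)
    refine tendsto_of_tendsto_of_tendsto_of_le_of_le' h3 h2 ?_ ?_
    · filter_upwards [hpos] with M hM
      have := Real.one_sub_inv_le_log_of_pos hM
      have h4 : (N M : ℝ) * (u M - 1) * (u M)⁻¹ = N M * (1 - (u M)⁻¹) := by
        field_simp
      rw [h4]
      exact mul_le_mul_of_nonneg_left this (Nat.cast_nonneg _)
    · filter_upwards [hpos] with M hM
      have := Real.log_le_sub_one_of_pos hM
      exact mul_le_mul_of_nonneg_left this (Nat.cast_nonneg _)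
  have h5 := (Real.continuous_exp.tendsto t).comp hlog
  refine h5.congr' ?_
  filter_upwards [hpos] with M hM
  simp only [Function.comp]
  rw [mul_comm, Real.exp_mul, Real.exp_log hM, Real.rpow_natCast]

open Classical in
/-- The number of maps `c : V → Fin M` for which no edge in `E` is monochromatic. -/
noncomputable def col (V : Type) [Fintype V] (M : ℕ) (E : Finset (Sym2 V)) : ℕ :=
  (univ.filter (fun c : V → Fin M => ∀ e ∈ E, ¬ Mono c e)).card

lemma col_eq (V : Type) [Fintype V] (M : ℕ) (E : Finset (Sym2 V)) :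
    (col V M E : ℝ) = ∑ S ∈ E.powerset, (-1 : ℝ) ^ S.card * (mc V M S : ℝ) := by
  classical
  have h1 : ∀ c : V → Fin M, (if ∀ e ∈ E, ¬ Mono c e then (1 : ℝ) else 0) =
      ∑ S ∈ E.powerset, (-1 : ℝ) ^ S.card * (if ∀ e ∈ S, Mono c e then (1 : ℝ) else 0) := by
    intro c
    have h2 : (if ∀ e ∈ E, ¬ Mono c e then (1 : ℝ) else 0) =
        ∏ e ∈ E, (1 + (if Mono c e then (-1 : ℝ) else 0)) := by
      split_ifs with h
      · symm
        apply prod_eq_one
        intro e he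
        simp [h e he]
      · push Not at h
        obtain ⟨e, he, hm⟩ := h
        symm
        apply prod_eq_zero he
        simp [hm]
    rw [h2, prod_one_add]
    apply sum_congr rfl
    intro S hS
    split_ifs with h
    · rw [prod_congr rfl (g := fun _ => (-1 : ℝ))]
      · simp
      · intro e he
        simp [h e he]
    · push Not at h
      obtain ⟨e, he, hm⟩ := h
      rw [mul_zero]
      apply prod_eq_zero he
      simp [hm]
  unfold col
  rw [card_filter]
  push_cast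
  simp_rw [h1]
  rw [sum_comm]
  apply sum_congr rfl
  intro S hS
  rw [← mul_sum]
  congr 1
  unfold mc
  rw [card_filter]
  push_cast
  rfl

lemma pow_eq (V : Type) (M : ℝ) (E : Finset (Sym2 V)) :
    (1 - M⁻¹) ^ E.card = ∑ S ∈ E.powerset, (-1 : ℝ) ^ S.card * (M⁻¹) ^ S.card := by
  classical
  have : (1 - M⁻¹) ^ E.card = ∏ e ∈ E, (1 + (-M⁻¹)) := by
    rw [prod_const, sub_eq_add_neg]
  rw [this, prod_one_add]
  apply sum_congr rfl
  intro S _
  rw [prod_const, ← mul_pow]
  congr 1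
  ring

open Classical in
/-- The number of triangle edge sets. -/
noncomputable def tri (V : Type) [Fintype V] (E : Finset (Sym2 V)) : ℕ :=
  (E.powerset.filter (fun S => IsTri S)).card

lemma isTri_card {V : Type} [DecidableEq V] {S : Finset (Sym2 V)} (h : IsTri S) :
    S.card = 3 := by
  obtain ⟨a, b, c, hab, hbc, hac, rfl⟩ := h
  rw [card_eq_three]
  refine ⟨_, _, _, ?_, ?_, ?_, rfl⟩
  · intro h
    rw [Sym2.eq_iff] at h
    rcases h with h | h
    · exact hab h.1
    · exact hac h.1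
  · intro h
    rw [Sym2.eq_iff] at h
    rcases h with h | h
    · exact hbc h.2
    · exact hac h.1
  · intro h
    rw [Sym2.eq_iff] at h
    rcases h with h | h
    · exact hab h.1.symm
    · exact hbc h.1

lemma main_bound (V : Type) [Fintype V] (M : ℕ) (hM : 0 < M) (E : Finset (Sym2 V))
    (hE : ∀ e ∈ E, ¬ e.IsDiag) :
    |(col V M E : ℝ) / (M : ℝ) ^ Fintype.card V - (1 - (M : ℝ)⁻¹) ^ E.card
      + tri V E * ((M : ℝ)⁻¹) ^ 2| ≤ 2 ^ E.card * ((M : ℝ)⁻¹) ^ 3 := by
  classical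
  have hM0 : (0 : ℝ) < M := by exact_mod_cast hM
  have hM1 : (1 : ℝ) ≤ M := by exact_mod_cast hM
  set m : ℝ := (M : ℝ)⁻¹ with hm
  have hm0 : 0 < m := inv_pos.2 hM0
  have hm1 : m ≤ 1 := inv_le_one_of_one_le₀ hM1
  set K : ℝ := (M : ℝ) ^ Fintype.card V with hK
  have hK0 : 0 < K := by positivity
  have hmM : m * M = 1 := inv_mul_cancel₀ hM0.ne'
  have hgood : ∀ S : Finset (Sym2 V), Good V M S → (mc V M S : ℝ) / K = m ^ S.card := by
    intro S hS
    unfold Good at hS
    have hS' : (mc V M S : ℝ) * (M : ℝ) ^ S.card = K := by rw [hK]; exact_mod_cast hS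
    rw [div_eq_iff hK0.ne', ← hS']
    calc (mc V M S : ℝ) = mc V M S * (m * M) ^ S.card := by rw [hmM]; simp
      _ = _ := by rw [mul_pow]; ring
  have hterm : ∀ S ∈ E.powerset,
      |(-1 : ℝ) ^ S.card * ((mc V M S : ℝ) / K) - (-1 : ℝ) ^ S.card * m ^ S.card
        + (if IsTri S then m ^ 2 else 0)| ≤ m ^ 3 := by
    intro S hS
    rw [mem_powerset] at hS
    have hS' : ∀ e ∈ S, ¬ e.IsDiag := fun e he => hE e (hS he)
    by_cases ht : IsTri S
    · rw [if_pos ht, isTri_card ht]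
      have h1 := mc_tri M S ht
      have h2 : (mc V M S : ℝ) / K = m ^ 2 := by
        have hS' : (mc V M S : ℝ) * (M : ℝ) ^ 2 = K := by rw [hK]; exact_mod_cast h1
        rw [div_eq_iff hK0.ne', ← hS']
        calc (mc V M S : ℝ) = mc V M S * (m * M) ^ 2 := by rw [hmM]; simp
          _ = _ := by rw [mul_pow]; ring
      rw [h2]
      have : (-1 : ℝ) ^ 3 * m ^ 2 - (-1) ^ 3 * m ^ 3 + m ^ 2 = m ^ 3 := by ring
      rw [this, abs_of_pos (by positivity)]
    · rw [if_neg ht, add_zero]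
      by_cases hc : S.card ≤ 3
      · have hg : Good V M S := by
          by_cases hc2 : S.card ≤ 2
          · exact good_of_card_le_two M S hS' hc2
          · rcases good_or_tri_of_card_three M S hS' (by omega) with h | h
            · exact h
            · exact absurd h ht
        rw [hgood S hg, sub_self, abs_zero]
        positivity
      · push Not at hc
        have h1 := mc_big M S hS' hc
        have h2 : (mc V M S : ℝ) / K ≤ m ^ 3 := by
          have hS' : (mc V M S : ℝ) * (M : ℝ) ^ 3 ≤ K := by rw [hK]; exact_mod_cast h1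
          rw [div_le_iff₀ hK0]
          calc (mc V M S : ℝ) = m ^ 3 * (mc V M S * M ^ 3) := by
                have : m ^ 3 * (mc V M S * M ^ 3) = mc V M S * (m * M) ^ 3 := by ring
                rw [this, hmM]; simp
            _ ≤ m ^ 3 * K := by gcongr
        have h3 : m ^ S.card ≤ m ^ 3 := pow_le_pow_of_le_one hm0.le hm1 (by omega)
        have h4 : 0 ≤ (mc V M S : ℝ) / K := by positivity
        have h5 : 0 ≤ m ^ S.card := by positivity
        rw [← mul_sub, abs_mul, abs_pow, abs_neg, abs_one, one_pow, one_mul, abs_le]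
        constructor <;> linarith
  have hsum : (col V M E : ℝ) / K - (1 - m) ^ E.card + tri V E * m ^ 2 =
      ∑ S ∈ E.powerset, ((-1 : ℝ) ^ S.card * ((mc V M S : ℝ) / K) - (-1 : ℝ) ^ S.card * m ^ S.card
        + (if IsTri S then m ^ 2 else 0)) := by
    rw [sum_add_distrib, sum_sub_distrib, col_eq, hm, pow_eq, ← sum_filter, sum_const,
      nsmul_eq_mul, sum_div]
    unfold tri
    congr 3
    funext S
    ring
  rw [hsum]
  calc _ ≤ ∑ S ∈ E.powerset, _ := abs_sum_le_sum_abs _ _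
    _ ≤ ∑ S ∈ E.powerset, m ^ 3 := sum_le_sum hterm
    _ = 2 ^ E.card * m ^ 3 := by rw [sum_const, card_powerset, nsmul_eq_mul]; push_cast; ring

/-- The limit of the normalised counts of the tensor powers. -/
theorem tendsto_col (V : Type) [Fintype V] (E : Finset (Sym2 V)) (hE : ∀ e ∈ E, ¬ e.IsDiag) :
    Tendsto (fun M : ℕ => (((col V M E : ℝ) / (M : ℝ) ^ Fintype.card V) /
      (1 - (M : ℝ)⁻¹) ^ E.card) ^ (M ^ 2)) atTop (𝓝 (Real.exp (-(tri V E : ℝ)))) := by
  have hinv : Tendsto (fun M : ℕ => (M : ℝ)⁻¹) atTop (𝓝 0) :=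
    tendsto_inv_atTop_nhds_zero_nat
  have hq : Tendsto (fun M : ℕ => (1 - (M : ℝ)⁻¹) ^ E.card) atTop (𝓝 1) := by
    simpa using (tendsto_const_nhds (x := (1 : ℝ)) |>.sub hinv).pow E.card
  -- `M^2 (r - q) → -T`
  have hD : Tendsto (fun M : ℕ => (M : ℝ) ^ 2 * ((col V M E : ℝ) / (M : ℝ) ^ Fintype.card V -
      (1 - (M : ℝ)⁻¹) ^ E.card)) atTop (𝓝 (-(tri V E : ℝ))) := by
    rw [← tendsto_sub_nhds_zero_iff]
    have h0 : Tendsto (fun M : ℕ => (2 : ℝ) ^ E.card * (M : ℝ)⁻¹) atTop (𝓝 0) := by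
      simpa using hinv.const_mul ((2 : ℝ) ^ E.card)
    refine squeeze_zero_norm' ?_ h0
    filter_upwards [eventually_gt_atTop 0] with M hM
    have hM0 : (0 : ℝ) < M := by exact_mod_cast hM
    have := main_bound V M hM E hE
    rw [Real.norm_eq_abs]
    have h1 : (M : ℝ) ^ 2 * ((col V M E : ℝ) / (M : ℝ) ^ Fintype.card V -
      (1 - (M : ℝ)⁻¹) ^ E.card) - (-(tri V E : ℝ)) = (M : ℝ) ^ 2 *
        ((col V M E : ℝ) / (M : ℝ) ^ Fintype.card V - (1 - (M : ℝ)⁻¹) ^ E.card
          + tri V E * ((M : ℝ)⁻¹) ^ 2) := by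
      field_simp
      ring
    rw [h1, abs_mul, abs_of_pos (by positivity : (0 : ℝ) < (M : ℝ) ^ 2)]
    calc (M : ℝ) ^ 2 * _ ≤ (M : ℝ) ^ 2 * (2 ^ E.card * ((M : ℝ)⁻¹) ^ 3) := by gcongr
      _ = 2 ^ E.card * (M : ℝ)⁻¹ := by field_simp
  -- `r - q → 0`
  have hrq : Tendsto (fun M : ℕ => (col V M E : ℝ) / (M : ℝ) ^ Fintype.card V -
      (1 - (M : ℝ)⁻¹) ^ E.card) atTop (𝓝 0) := by
    have h1 : Tendsto (fun M : ℕ => ((M : ℝ)⁻¹) ^ 2 * ((M : ℝ) ^ 2 *
      ((col V M E : ℝ) / (M : ℝ) ^ Fintype.card V -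
      (1 - (M : ℝ)⁻¹) ^ E.card))) atTop (𝓝 0) := by
      simpa using (hinv.pow 2).mul hD
    refine h1.congr' ?_
    filter_upwards [eventually_gt_atTop 0] with M hM
    have hM0 : (0 : ℝ) < M := by exact_mod_cast hM
    field_simp
  have hpos : ∀ᶠ M : ℕ in atTop, (1 - (M : ℝ)⁻¹) ^ E.card ≠ 0 := by
    filter_upwards [eventually_gt_atTop 1] with M hM
    have hM0 : (1 : ℝ) < M := by exact_mod_cast hM
    have : (M : ℝ)⁻¹ < 1 := inv_lt_one_of_one_lt₀ hM0
    apply pow_ne_zero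
    linarith
  apply tendsto_pow_exp
  · have h1 : Tendsto (fun M : ℕ => 1 + ((col V M E : ℝ) / (M : ℝ) ^ Fintype.card V -
      (1 - (M : ℝ)⁻¹) ^ E.card) / (1 - (M : ℝ)⁻¹) ^ E.card) atTop (𝓝 1) := by
      simpa using (hrq.div hq one_ne_zero).const_add 1
    refine h1.congr' ?_
    filter_upwards [hpos] with M hM
    rw [sub_div, div_self hM]
    ring
  · have h1 : Tendsto (fun M : ℕ => ((M : ℝ) ^ 2 * ((col V M E : ℝ) / (M : ℝ) ^ Fintype.card V -
      (1 - (M : ℝ)⁻¹) ^ E.card)) / (1 - (M : ℝ)⁻¹) ^ E.card) atTop (𝓝 (-(tri V E : ℝ))) := by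
      have h2 := hD.div hq one_ne_zero
      rw [div_one] at h2
      exact h2
    refine h1.congr' ?_
    filter_upwards [hpos] with M hM
    push_cast
    rw [mul_div_assoc, sub_div, div_self hM]

end Pool.Agent.W114.TD
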