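import Pool.Agent.W114.TDb

set_option autoImplicit false

open Finset Filter Topology

namespace Pool.Agent.W114.TD

/-- number of homomorphisms -/
noncomputable def homc {k : ℕ} {W : Type} (F : SimpleGraph (Fin k)) (H : SimpleGraph W) : ℕ :=
  {f : Fin k → W | ∀ a b, F.Adj a b → H.Adj (f a) (f b)}.ncard

/-- number of injective homomorphisms -/
noncomputable def embc {k n : ℕ} (F : SimpleGraph (Fin k)) (G : SimpleGraph (Fin n)) : ℕ :=
  {f : Fin k → Fin n | Function.Injective f ∧ ∀ a b, F.Adj a b → G.Adj (f a) (f b)}.ncard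

/-- A periodic enumeration. -/
noncomputable def per (W : Type) [Fintype W] [Nonempty W] (i : ℕ) : W :=
  (Fintype.equivFin W).symm ⟨i % Fintype.card W, Nat.mod_lt _ Fintype.card_pos⟩

open Classical in
lemma per_count (W : Type) [Fintype W] [Nonempty W] (w : W) (n : ℕ) :
    ((n : ℝ) / Fintype.card W - 1 ≤ ((univ.filter (fun i : Fin n => per W i = w)).card : ℝ)) ∧
    (((univ.filter (fun i : Fin n => per W i = w)).card : ℝ) ≤ (n : ℝ) / Fintype.card W + 1) := by
  set N := Fintype.card W with hN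
  have hNpos : 0 < N := Fintype.card_pos
  have h1 : (univ.filter (fun i : Fin n => per W i = w)).card =
      Nat.count (· ≡ ((Fintype.equivFin W w : Fin N) : ℕ) [MOD N]) n := by
    rw [Nat.count_eq_card_filter_range, card_filter, card_filter,
      ← Fin.sum_univ_eq_sum_range (fun i => if i ≡ ((Fintype.equivFin W w : Fin N) : ℕ) [MOD N] then 1 else 0)]
    apply sum_congr rfl
    intro i _
    congr 1
    apply propext
    unfold per
    rw [Equiv.symm_apply_eq, Fin.ext_iff]
    unfold Nat.ModEq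
    simp only
    rw [Nat.mod_eq_of_lt (Fintype.equivFin W w).2]
  have h2 : n / N ≤ Nat.count (· ≡ ((Fintype.equivFin W w : Fin N) : ℕ) [MOD N]) n ∧
      Nat.count (· ≡ ((Fintype.equivFin W w : Fin N) : ℕ) [MOD N]) n ≤ n / N + 1 := by
    rw [Nat.count_modEq_card _ hNpos]
    split_ifs <;> omega
  rw [h1]
  have hN0 : (0 : ℝ) < N := by exact_mod_cast hNpos
  have h3 : (n : ℝ) / N - 1 ≤ ((n / N : ℕ) : ℝ) := by
    have := Nat.div_add_mod n N
    have hlt := Nat.mod_lt n hNpos
    have h4 : (n : ℝ) = N * ((n / N : ℕ) : ℝ) + ((n % N : ℕ) : ℝ) := by exact_mod_cast this.symm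
    have h5 : ((n % N : ℕ) : ℝ) ≤ N := by exact_mod_cast hlt.le
    rw [sub_le_iff_le_add, div_le_iff₀ hN0]
    nlinarith
  have h4 : ((n / N : ℕ) : ℝ) ≤ (n : ℝ) / N := Nat.cast_div_le
  constructor
  · refine h3.trans ?_
    exact_mod_cast h2.1
  · have : ((Nat.count (· ≡ ((Fintype.equivFin W w : Fin N) : ℕ) [MOD N]) n : ℕ) : ℝ) ≤
      ((n / N + 1 : ℕ) : ℝ) := by exact_mod_cast h2.2
    push_cast at this
    linarith

open Classical in
lemma per_tendsto (W : Type) [Fintype W] [Nonempty W] (w : W) :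
    Tendsto (fun n : ℕ => ((univ.filter (fun i : Fin n => per W i = w)).card : ℝ) / n) atTop
      (𝓝 ((Fintype.card W : ℝ)⁻¹)) := by
  have hinv : Tendsto (fun n : ℕ => (n : ℝ)⁻¹) atTop (𝓝 0) :=
    tendsto_inv_atTop_nhds_zero_nat
  have h1 : Tendsto (fun n : ℕ => (Fintype.card W : ℝ)⁻¹ - (n : ℝ)⁻¹) atTop
      (𝓝 ((Fintype.card W : ℝ)⁻¹)) := by simpa using hinv.const_sub ((Fintype.card W : ℝ)⁻¹)
  have h2 : Tendsto (fun n : ℕ => (Fintype.card W : ℝ)⁻¹ + (n : ℝ)⁻¹) atTop
      (𝓝 ((Fintype.card W : ℝ)⁻¹)) := by simpa using hinv.const_add ((Fintype.card W : ℝ)⁻¹)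
  refine tendsto_of_tendsto_of_tendsto_of_le_of_le' h1 h2 ?_ ?_
  · filter_upwards [eventually_gt_atTop 0] with n hn
    have hn0 : (0 : ℝ) < n := by exact_mod_cast hn
    have := (per_count W w n).1
    rw [le_div_iff₀ hn0]
    calc ((Fintype.card W : ℝ)⁻¹ - (n : ℝ)⁻¹) * n = (n : ℝ) / Fintype.card W - 1 := by
          field_simp
      _ ≤ _ := this
  · filter_upwards [eventually_gt_atTop 0] with n hn
    have hn0 : (0 : ℝ) < n := by exact_mod_cast hn
    have := (per_count W w n).2
    rw [div_le_iff₀ hn0]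
    calc _ ≤ _ := this
      _ = ((Fintype.card W : ℝ)⁻¹ + (n : ℝ)⁻¹) * n := by
          field_simp

lemma desc_tendsto (k : ℕ) :
    Tendsto (fun n : ℕ => (n.descFactorial k : ℝ) / (n : ℝ) ^ k) atTop (𝓝 1) := by
  induction k with
  | zero => simp
  | succ k ih =>
    have h1 : Tendsto (fun n : ℕ => ((n - k : ℕ) : ℝ) / n) atTop (𝓝 1) := by
      have h2 : Tendsto (fun n : ℕ => 1 - (k : ℝ) * (n : ℝ)⁻¹) atTop (𝓝 1) := by
        have := (tendsto_inv_atTop_nhds_zero_nat (𝕜 := ℝ)).const_mul (k : ℝ)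
        simpa using this.const_sub 1
      refine h2.congr' ?_
      filter_upwards [eventually_gt_atTop k] with n hn
      have hn0 : (0 : ℝ) < n := by exact_mod_cast (by omega : 0 < n)
      rw [Nat.cast_sub hn.le]
      field_simp
    have h3 := h1.mul ih
    rw [mul_one] at h3
    refine h3.congr' ?_
    filter_upwards with n
    rw [Nat.descFactorial_succ, pow_succ]
    push_cast
    rw [div_mul_div_comm, mul_comm (n : ℝ)]

/-- The blow-up. -/
noncomputable def blow {W : Type} [Fintype W] [Nonempty W] (H : SimpleGraph W) (n : ℕ) :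
    SimpleGraph (Fin n) := H.comap (fun i : Fin n => per W i)

open Classical in
lemma homc_blow {k : ℕ} {W : Type} [Fintype W] [Nonempty W] (F : SimpleGraph (Fin k))
    (H : SimpleGraph W) (n : ℕ) :
    homc F (blow H n) = ∑ ψ ∈ univ.filter (fun f : Fin k → W => ∀ a b, F.Adj a b → H.Adj (f a) (f b)),
      ∏ v : Fin k, (univ.filter (fun i : Fin n => per W i = ψ v)).card := by
  unfold homc
  rw [Set.ncard_eq_toFinset_card' ]
  rw [Finset.card_eq_sum_card_fiberwise (f := fun (f : Fin k → Fin n) => (fun v => per W (f v)))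
    (t := univ.filter (fun f : Fin k → W => ∀ a b, F.Adj a b → H.Adj (f a) (f b)))]
  · apply sum_congr rfl
    intro ψ hψ
    rw [mem_filter] at hψ
    rw [← Fintype.card_piFinset]
    congr 1
    ext f
    simp only [Set.toFinset_ofPred, mem_filter, mem_univ, true_and, Fintype.mem_piFinset, blow,
      SimpleGraph.comap_adj]
    constructor
    · rintro ⟨_, h⟩ v
      exact congrFun h v
    · intro h
      have h' : (fun v => per W (f v)) = ψ := funext h
      refine ⟨?_, h'⟩
      intro a b hab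
      rw [h a, h b]
      exact hψ.2 a b hab
  · intro f hf
    simp only [Set.toFinset_ofPred, coe_filter, mem_univ, true_and, Set.mem_ofPred_eq, blow,
      SimpleGraph.comap_adj] at hf ⊢
    exact hf

lemma homc_blow_tendsto {k : ℕ} {W : Type} [Fintype W] [Nonempty W] (F : SimpleGraph (Fin k))
    (H : SimpleGraph W) :
    Tendsto (fun n : ℕ => (homc F (blow H n) : ℝ) / (n : ℝ) ^ k) atTop
      (𝓝 ((homc F H : ℝ) / (Fintype.card W : ℝ) ^ k)) := by
  classical
  have h1 : Tendsto (fun n : ℕ => ∑ ψ ∈ univ.filter (fun f : Fin k → W => ∀ a b, F.Adj a b → H.Adj (f a) (f b)),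
      ∏ v : Fin k, (((univ.filter (fun i : Fin n => per W i = ψ v)).card : ℝ) / n)) atTop
      (𝓝 (∑ ψ ∈ univ.filter (fun f : Fin k → W => ∀ a b, F.Adj a b → H.Adj (f a) (f b)),
      ∏ v : Fin k, ((Fintype.card W : ℝ)⁻¹))) := by
    apply tendsto_finsetSum
    intro ψ _
    apply tendsto_finsetProd
    intro v _
    exact per_tendsto W (ψ v)
  have h2 : (∑ ψ ∈ univ.filter (fun f : Fin k → W => ∀ a b, F.Adj a b → H.Adj (f a) (f b)),
      ∏ v : Fin k, ((Fintype.card W : ℝ)⁻¹)) = (homc F H : ℝ) / (Fintype.card W : ℝ) ^ k := by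
    unfold homc
    rw [Set.ncard_eq_toFinset_card']
    simp only [prod_const, card_univ, Fintype.card_fin, sum_const, nsmul_eq_mul, Set.toFinset_ofPred]
    rw [inv_pow]
    rfl
  rw [h2] at h1
  refine h1.congr' ?_
  filter_upwards with n
  rw [homc_blow]
  push_cast
  rw [sum_div]
  apply sum_congr rfl
  intro ψ _
  rw [prod_div_distrib, prod_const, card_univ, Fintype.card_fin]

lemma embc_le_homc {k n : ℕ} (F : SimpleGraph (Fin k)) (G : SimpleGraph (Fin n)) :
    embc F G ≤ homc F G :=
  Set.ncard_le_ncard (fun _ h => h.2) (Set.toFinite _)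

lemma homc_le {k n : ℕ} (F : SimpleGraph (Fin k)) (G : SimpleGraph (Fin n)) :
    homc F G + n.descFactorial k ≤ embc F G + n ^ k := by
  classical
  have hinj : {f : Fin k → Fin n | Function.Injective f}.ncard = n.descFactorial k := by
    rw [← Nat.card_coe_set_eq]
    refine (Nat.card_congr (Equiv.subtypeInjectiveEquivEmbedding (Fin k) (Fin n))).trans ?_
    rw [Nat.card_eq_fintype_card]
    simp [Fintype.card_embedding_eq]
  have hall : (Set.univ : Set (Fin k → Fin n)).ncard = n ^ k := by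
    rw [Set.ncard_univ, Nat.card_eq_fintype_card]; simp
  rw [← hinj, ← hall]
  unfold homc embc
  set A := {f : Fin k → Fin n | ∀ a b, F.Adj a b → G.Adj (f a) (f b)}
  set B := {f : Fin k → Fin n | Function.Injective f}
  have h1 := Set.ncard_union_add_ncard_inter A B
  have h2 : A ∩ B = {f : Fin k → Fin n | Function.Injective f ∧ ∀ a b, F.Adj a b → G.Adj (f a) (f b)} := by
    ext f
    exact And.comm
  rw [← h2, ← h1, add_comm]
  exact Nat.add_le_add_left (Set.ncard_le_ncard (Set.subset_univ _)) _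

lemma embc_blow_tendsto {k : ℕ} {W : Type} [Fintype W] [Nonempty W] (F : SimpleGraph (Fin k))
    (H : SimpleGraph W) :
    Tendsto (fun n : ℕ => (embc F (blow H n) : ℝ) / (n.descFactorial k : ℝ)) atTop
      (𝓝 ((homc F H : ℝ) / (Fintype.card W : ℝ) ^ k)) := by
  have hd := desc_tendsto k
  have hh := homc_blow_tendsto F H
  have h1 : Tendsto (fun n : ℕ => (embc F (blow H n) : ℝ) / (n : ℝ) ^ k) atTop
      (𝓝 ((homc F H : ℝ) / (Fintype.card W : ℝ) ^ k)) := by
    have h2 : Tendsto (fun n : ℕ => (homc F (blow H n) : ℝ) / (n : ℝ) ^ k +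
        ((n.descFactorial k : ℝ) / (n : ℝ) ^ k - 1)) atTop
        (𝓝 ((homc F H : ℝ) / (Fintype.card W : ℝ) ^ k)) := by
      simpa using hh.add (hd.sub_const 1)
    refine tendsto_of_tendsto_of_tendsto_of_le_of_le' h2 hh ?_ ?_
    · filter_upwards [eventually_gt_atTop 0] with n hn
      have hn0 : (0 : ℝ) < n := by exact_mod_cast hn
      have h3 : (homc F (blow H n) : ℝ) + n.descFactorial k ≤ embc F (blow H n) + (n : ℝ) ^ k := by
        exact_mod_cast homc_le F (blow H n)
      rw [div_add' _ _ _ (by positivity : (n : ℝ) ^ k ≠ 0)]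
      apply div_le_div_of_nonneg_right _ (by positivity)
      rw [sub_mul, div_mul_cancel₀ _ (by positivity)]
      linarith
    · filter_upwards with n
      apply div_le_div_of_nonneg_right _ (by positivity)
      exact_mod_cast embc_le_homc F (blow H n)
  have h4 := h1.div hd one_ne_zero
  rw [div_one] at h4
  refine h4.congr' ?_
  filter_upwards [eventually_gt_atTop 0] with n hn
  have hn0 : (0 : ℝ) < n := by exact_mod_cast hn
  simp only [Pi.div_apply]
  rw [div_div_div_cancel_right₀ (by positivity)]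

/-- The graph on `Fin m → Fin M` in which two functions are adjacent if they differ in every
coordinate (and are different). -/
def tens (m M : ℕ) : SimpleGraph (Fin m → Fin M) where
  Adj x y := x ≠ y ∧ ∀ t, x t ≠ y t
  symm := ⟨fun _ _ h => ⟨h.1.symm, fun t => (h.2 t).symm⟩⟩
  loopless := ⟨fun _ h => h.1 rfl⟩

lemma homc_tens {k : ℕ} (F : SimpleGraph (Fin k)) (m M : ℕ) (hm : 0 < m) :
    homc F (tens m M) = (col (Fin k) M (@SimpleGraph.edgeFinset _ F (Fintype.ofFinite _))) ^ m := by
  classical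
  have h1 : {f : Fin k → Fin m → Fin M | ∀ a b, F.Adj a b → (tens m M).Adj (f a) (f b)} =
      {f : Fin k → Fin m → Fin M | ∀ t, ∀ a b, F.Adj a b → f a t ≠ f b t} := by
    ext f
    simp only [Set.mem_ofPred_eq, tens]
    constructor
    · intro h t a b hab
      exact (h a b hab).2 t
    · intro h a b hab
      refine ⟨?_, fun t => h t a b hab⟩
      intro heq
      exact h ⟨0, hm⟩ a b hab (by rw [heq])
  unfold homc
  rw [h1]
  let A : Type := {c : Fin k → Fin M // ∀ a b, F.Adj a b → c a ≠ c b}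
  have e : {f : Fin k → Fin m → Fin M | ∀ t, ∀ a b, F.Adj a b → f a t ≠ f b t} ≃ (Fin m → A) :=
    { toFun := fun f t => ⟨fun a => f.1 a t, fun a b hab => f.2 t a b hab⟩
      invFun := fun g => ⟨fun a t => (g t).1 a, fun t a b hab => (g t).2 a b hab⟩
      left_inv := fun f => rfl
      right_inv := fun g => rfl }
  rw [← Nat.card_coe_set_eq, Nat.card_congr e, Nat.card_fun]
  rw [Nat.card_eq_fintype_card (α := Fin m), Fintype.card_fin]
  congr 1
  unfold col
  rw [Nat.card_eq_fintype_card, Fintype.card_subtype]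
  congr 1
  ext c
  simp only [mem_filter, mem_univ, true_and, SimpleGraph.mem_edgeFinset]
  constructor
  · intro h e he
    induction e using Sym2.ind with
    | _ x y => rw [mono_mk]; exact h x y he
  · intro h a b hab
    have := h s(a, b) hab
    rwa [mono_mk] at this

end Pool.Agent.W114.TD
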