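import Pool.Agent.W114.TDc

set_option autoImplicit false

open Finset Filter Topology

namespace Pool.Agent.W114.TD

/-- A diagonal argument. -/
lemma diag_tendsto {X : Type} [TopologicalSpace X] [FirstCountableTopology X] (x : ℕ → ℕ → X)
    (y : ℕ → X) (L : X) (h1 : ∀ M, Tendsto (x M) atTop (𝓝 (y M))) (h2 : Tendsto y atTop (𝓝 L)) :
    ∃ μ : ℕ → ℕ, Tendsto (fun n => x (μ n) n) atTop (𝓝 L) := by
  classical
  obtain ⟨U, hU⟩ := (𝓝 L).exists_antitone_basis
  -- choose `M j` and thresholds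
  have h3 : ∀ j, ∃ M, ∀ᶠ n in atTop, x M n ∈ U j := by
    intro j
    obtain ⟨O, hOU, hO, hLO⟩ := mem_nhds_iff.1 (hU.1.mem_of_mem (i := j) trivial)
    have h4 : ∀ᶠ M in atTop, y M ∈ O := h2 (hO.mem_nhds hLO)
    obtain ⟨M, hM⟩ := h4.exists
    refine ⟨M, ?_⟩
    filter_upwards [h1 M (hO.mem_nhds hM)] with n hn
    exact hOU hn
  choose M hM using h3
  have h5 : ∀ j, ∃ a, ∀ n ≥ a, x (M j) n ∈ U j := fun j => eventually_atTop.1 (hM j)
  choose a ha using h5
  -- `ν n` = the largest `j ≤ n` with `a j ≤ n`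
  refine ⟨fun n => M (Nat.findGreatest (fun j => a j ≤ n) n), ?_⟩
  rw [hU.1.tendsto_right_iff]
  intro j _
  filter_upwards [eventually_ge_atTop (max (a j) (max j (a 0)))] with n hn
  have hj : j ≤ Nat.findGreatest (fun j => a j ≤ n) n := by
    apply Nat.le_findGreatest
    · exact le_trans (le_trans (le_max_left _ _) (le_max_right _ _)) hn
    · exact le_trans (le_max_left _ _) hn
  have hs : a (Nat.findGreatest (fun j => a j ≤ n) n) ≤ n := by
    apply Nat.findGreatest_spec (P := fun j => a j ≤ n) (m := 0) (Nat.zero_le _)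
    exact le_trans (le_trans (le_max_right _ _) (le_max_right _ _)) hn
  exact hU.2 hj (ha _ n hs)

/-- The densities. -/
noncomputable def dens (M : ℕ) : ℝ := (1 - ((M + 2 : ℕ) : ℝ)⁻¹) ^ ((M + 2) ^ 2)

lemma dens_pos (M : ℕ) : 0 < dens M := by
  unfold dens
  apply pow_pos
  have : ((M + 2 : ℕ) : ℝ)⁻¹ < 1 := by
    apply inv_lt_one_of_one_lt₀
    push_cast
    have : (0 : ℝ) ≤ M := Nat.cast_nonneg _
    linarith
  linarith

lemma dens_le (M : ℕ) : dens M ≤ 1 := by
  unfold dens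
  apply pow_le_one₀
  · have : ((M + 2 : ℕ) : ℝ)⁻¹ < 1 := by
      apply inv_lt_one_of_one_lt₀
      push_cast
      have : (0 : ℝ) ≤ M := Nat.cast_nonneg _
      linarith
    linarith
  · have : 0 ≤ ((M + 2 : ℕ) : ℝ)⁻¹ := by positivity
    linarith

/-- The graphs `G^{(M)}_n`. -/
noncomputable def gr (M n : ℕ) : SimpleGraph (Fin n) := blow (tens ((M + 2) ^ 2) (M + 2)) n

open Classical in
lemma gr_tendsto (M : ℕ) (k : ℕ) (F : SimpleGraph (Fin k)) :
    Tendsto (fun n : ℕ => (embc F (gr M n) : ℝ) / (dens M ^ F.edgeFinset.card *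
      (n.descFactorial k : ℝ))) atTop
      (𝓝 ((((col (Fin k) (M + 2) F.edgeFinset : ℝ) / ((M + 2 : ℕ) : ℝ) ^ k) /
      (1 - ((M + 2 : ℕ) : ℝ)⁻¹) ^ F.edgeFinset.card) ^ ((M + 2) ^ 2))) := by
  have h1 := (embc_blow_tendsto F (tens ((M + 2) ^ 2) (M + 2))).div_const
    (dens M ^ F.edgeFinset.card)
  have h2 : (homc F (tens ((M + 2) ^ 2) (M + 2)) : ℝ) /
      (Fintype.card (Fin ((M + 2) ^ 2) → Fin (M + 2)) : ℝ) ^ k / dens M ^ F.edgeFinset.card =
      (((col (Fin k) (M + 2) F.edgeFinset : ℝ) / ((M + 2 : ℕ) : ℝ) ^ k) /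
      (1 - ((M + 2 : ℕ) : ℝ)⁻¹) ^ F.edgeFinset.card) ^ ((M + 2) ^ 2) := by
    rw [homc_tens F _ _ (by positivity)]
    simp only [Fintype.card_fun, Fintype.card_fin]
    unfold dens
    have h3 : (@SimpleGraph.edgeFinset _ F (Fintype.ofFinite _)) = F.edgeFinset := by
      ext e; simp only [SimpleGraph.mem_edgeFinset]
    rw [h3, div_pow, div_pow]
    push_cast
    rw [← pow_mul, ← pow_mul, ← pow_mul, ← pow_mul, mul_comm ((M + 2) ^ 2) k,
      mul_comm ((M + 2) ^ 2) F.edgeFinset.card]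
  rw [h2] at h1
  refine h1.congr' ?_
  filter_upwards with n
  unfold gr
  rw [div_div, mul_comm]

/-- number of triangles -/
noncomputable def nt {k : ℕ} (F : SimpleGraph (Fin k)) : ℕ := {s | F.IsNClique 3 s}.ncard

open Classical in
lemma tri_eq {k : ℕ} (F : SimpleGraph (Fin k)) : tri (Fin k) F.edgeFinset = nt F := by
  unfold nt tri
  rw [Set.ncard_eq_toFinset_card']
  symm
  apply Finset.card_bij (fun s _ => s.sym2.filter (fun e => ¬ e.IsDiag))
  · intro s hs
    simp only [Set.mem_toFinset, Set.mem_ofPred_eq] at hs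
    rw [SimpleGraph.is3Clique_iff] at hs
    obtain ⟨a, b, c, hab, hac, hbc, rfl⟩ := hs
    have h1 : (({a, b, c} : Finset (Fin k)).sym2.filter (fun e => ¬ e.IsDiag)) =
        {s(a, b), s(b, c), s(a, c)} := by
      ext e
      induction e using Sym2.ind with
      | _ x y =>
        have := hab.ne
        have := hac.ne
        have := hbc.ne
        simp only [mem_filter, mk_mem_sym2_iff, mem_insert, mem_singleton, Sym2.mk_isDiag_iff,
          Sym2.eq_iff]
        constructor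
        · rintro ⟨⟨h1 | h1 | h1, h2 | h2 | h2⟩, h3⟩ <;> subst h1 <;> subst h2 <;>
            first | exact absurd rfl h3 | simp
        · rintro ((⟨rfl, rfl⟩ | ⟨rfl, rfl⟩) | (⟨rfl, rfl⟩ | ⟨rfl, rfl⟩) | (⟨rfl, rfl⟩ | ⟨rfl, rfl⟩)) <;>
          simp_all [eq_comm]
    rw [h1, mem_filter, mem_powerset]
    refine ⟨?_, a, b, c, hab.ne, hbc.ne, hac.ne, by ext e; simp only [mem_insert, mem_singleton]⟩
    intro e he
    simp only [mem_insert, mem_singleton] at he
    rcases he with rfl | rfl | rfl <;> simpa [SimpleGraph.mem_edgeFinset]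
  · intro s hs t ht hst
    simp only [Set.mem_toFinset, Set.mem_ofPred_eq] at hs ht
    have key : ∀ s t : Finset (Fin k), F.IsNClique 3 s → 
        s.sym2.filter (fun e => ¬ e.IsDiag) = t.sym2.filter (fun e => ¬ e.IsDiag) → s ⊆ t := by
      intro s t hs hst x hx
      obtain ⟨y, hy, hyx⟩ : ∃ y ∈ s, y ≠ x := by
        have : 1 < s.card := by rw [hs.card_eq]; norm_num
        exact exists_mem_ne this x
      have h1 : s(x, y) ∈ s.sym2.filter (fun e => ¬ e.IsDiag) := by
        simp [hx, hy, hyx.symm]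
      rw [hst] at h1
      simp only [mem_filter, mk_mem_sym2_iff] at h1
      exact h1.1.1
    exact Subset.antisymm (key s t hs hst) (key t s ht hst.symm)
  · intro S hS
    rw [mem_filter, mem_powerset] at hS
    obtain ⟨hS, a, b, c, hab, hbc, hac, rfl⟩ := hS
    have hab' : F.Adj a b := by
      have := hS (by simp : s(a, b) ∈ _)
      simpa using this
    have hbc' : F.Adj b c := by
      have := hS (by simp : s(b, c) ∈ _)
      simpa using this
    have hac' : F.Adj a c := by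
      have := hS (by simp : s(a, c) ∈ _)
      simpa using this
    refine ⟨{a, b, c}, ?_, ?_⟩
    · simp only [Set.mem_toFinset, Set.mem_ofPred_eq]
      rw [SimpleGraph.is3Clique_triple_iff]
      exact ⟨hab', hac', hbc'⟩
    · ext e
      induction e using Sym2.ind with
      | _ x y =>
        simp only [mem_filter, mk_mem_sym2_iff, mem_insert, mem_singleton, Sym2.mk_isDiag_iff,
          Sym2.eq_iff]
        constructor
        · rintro ⟨⟨h1 | h1 | h1, h2 | h2 | h2⟩, h3⟩ <;> subst h1 <;> subst h2 <;>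
            first | exact absurd rfl h3 | simp
        · rintro ((⟨rfl, rfl⟩ | ⟨rfl, rfl⟩) | (⟨rfl, rfl⟩ | ⟨rfl, rfl⟩) | (⟨rfl, rfl⟩ | ⟨rfl, rfl⟩)) <;>
          simp_all [eq_comm]

/-- **The sequence.** -/
theorem exists_seq : ∃ (p : ℕ → ℝ) (G : ∀ n : ℕ, SimpleGraph (Fin n)),
    (∀ n, 0 < p n ∧ p n ≤ 1) ∧
    Tendsto (fun n : ℕ => Real.log (p n) / Real.log (n : ℝ)) atTop (𝓝 0) ∧
    ∀ (k : ℕ) (F : SimpleGraph (Fin k)),
      Tendsto (fun n : ℕ => (embc F (G n) : ℝ) / (p n ^ F.edgeSet.ncard *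
        (n.descFactorial k : ℝ))) atTop (𝓝 (Real.exp (-(nt F : ℝ)))) := by
  classical
  let I : Type := Option (Σ k : ℕ, SimpleGraph (Fin k))
  let x : ℕ → ℕ → (I → ℝ) := fun M n i => match i with
    | none => Real.log (dens M) / Real.log (n : ℝ)
    | some ⟨k, F⟩ => (embc F (gr M n) : ℝ) / (dens M ^ F.edgeFinset.card *
      (n.descFactorial k : ℝ))
  let y : ℕ → (I → ℝ) := fun M i => match i with
    | none => 0
    | some ⟨k, F⟩ => ((((col (Fin k) (M + 2) F.edgeFinset : ℝ) / ((M + 2 : ℕ) : ℝ) ^ k) /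
      (1 - ((M + 2 : ℕ) : ℝ)⁻¹) ^ F.edgeFinset.card) ^ ((M + 2) ^ 2))
  let L : I → ℝ := fun i => match i with
    | none => 0
    | some ⟨k, F⟩ => Real.exp (-(nt F : ℝ))
  have h1 : ∀ M, Tendsto (x M) atTop (𝓝 (y M)) := by
    intro M
    rw [tendsto_pi_nhds]
    intro i
    match i with
    | none =>
      exact (Real.tendsto_log_atTop.comp tendsto_natCast_atTop_atTop).const_div_atTop _
    | some ⟨k, F⟩ => exact gr_tendsto M k F
  have h2 : Tendsto y atTop (𝓝 L) := by
    rw [tendsto_pi_nhds]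
    intro i
    match i with
    | none => exact tendsto_const_nhds
    | some ⟨k, F⟩ =>
      have h3 := tendsto_col (Fin k) F.edgeFinset (fun e he => F.not_isDiag_of_mem_edgeSet
        (SimpleGraph.mem_edgeFinset.1 he))
      rw [tri_eq] at h3
      have h4 := h3.comp (tendsto_add_atTop_nat 2)
      simp only [Fintype.card_fin, Function.comp_def] at h4
      exact h4
  obtain ⟨μ, hμ⟩ := diag_tendsto x y L h1 h2
  rw [tendsto_pi_nhds] at hμ
  refine ⟨fun n => dens (μ n), fun n => gr (μ n) n, fun n => ⟨dens_pos _, dens_le _⟩, ?_, ?_⟩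
  · exact hμ none
  · intro k F
    have := hμ (some ⟨k, F⟩)
    have h5 : F.edgeSet.ncard = F.edgeFinset.card := by
      rw [← SimpleGraph.coe_edgeFinset, Set.ncard_coe_finset]
    rw [h5]
    exact this

end Pool.Agent.W114.TD
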