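import Pool.Agent.W114.TDd

set_option autoImplicit false

open Finset Filter Topology MeasureTheory

namespace Pool.Agent.W114.TD

/-- The uniform measure on `[0,1]`. -/
noncomputable abbrev nu : Measure ℝ := volume.restrict (Set.Icc (0 : ℝ) 1)

instance : IsProbabilityMeasure nu := ⟨by simp [nu]⟩

/-- The cube measure. -/
noncomputable abbrev cube (k : ℕ) : Measure (Fin k → ℝ) := Measure.pi (fun _ => nu)

lemma cube_eq (k : ℕ) :
    (volume : Measure (Fin k → ℝ)).restrict (Set.univ.pi (fun _ : Fin k => Set.Icc (0 : ℝ) 1)) =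
      cube k := by
  unfold cube nu
  rw [volume_pi, Measure.restrict_pi_pi]

lemma cube_succ (k : ℕ) (f : (Fin (k + 1) → ℝ) → ENNReal) (hf : Measurable f) :
    ∫⁻ x, f x ∂(cube (k + 1)) = ∫⁻ a, ∫⁻ x, f (Fin.cons a x) ∂(cube k) ∂nu := by
  have h := measurePreserving_piFinSuccAbove (fun _ : Fin (k + 1) => nu) 0
  have h2 := h.symm.lintegral_comp hf
  rw [← h2, lintegral_prod]
  · apply lintegral_congr
    intro a
    apply lintegral_congr
    intro x
    congr 1
    simp [MeasurableEquiv.piFinSuccAbove]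
    rfl
  · exact (hf.comp (MeasurableEquiv.measurable _)).aemeasurable

lemma cube_zero (f : (Fin 0 → ℝ) → ENNReal) :
    ∫⁻ x, f x ∂(cube 0) = f default := by
  have : cube 0 = Measure.dirac default := Measure.pi_of_empty _ _
  rw [this, lintegral_dirac]

lemma eq_one_of_moments {Ω : Type} [MeasurableSpace Ω] (P : Measure Ω) [IsProbabilityMeasure P]
    (K : Ω → ENNReal) (hK : Measurable K) (h1 : ∫⁻ x, K x ∂P = 1) (h2 : ∫⁻ x, K x ^ 2 ∂P = 1) :
    ∀ᵐ x ∂P, K x = 1 := by
  have hfin : ∀ᵐ x ∂P, K x < ⊤ := ae_lt_top hK (by rw [h1]; simp)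
  have hD : ∫⁻ x, ENNReal.ofReal (((K x).toReal - 1) ^ 2) ∂P = 0 := by
    have h3 : ∫⁻ x, (K x ^ 2 + 1) ∂P = ∫⁻ x, (2 * K x + ENNReal.ofReal (((K x).toReal - 1) ^ 2)) ∂P := by
      apply lintegral_congr_ae
      filter_upwards [hfin] with x hx
      have h4 : K x = ENNReal.ofReal (K x).toReal := (ENNReal.ofReal_toReal hx.ne).symm
      have h5 : 0 ≤ (K x).toReal := ENNReal.toReal_nonneg
      generalize (K x).toReal = r at h4 h5 ⊢
      rw [h4]
      have : (2 : ENNReal) = ENNReal.ofReal 2 := by simp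
      rw [this, ← ENNReal.ofReal_pow h5, ← ENNReal.ofReal_mul (by norm_num),
        ← ENNReal.ofReal_one, ← ENNReal.ofReal_add (by positivity) (by positivity),
        ← ENNReal.ofReal_add (by positivity) (by positivity)]
      congr 1
      ring
    rw [lintegral_add_right _ measurable_const, lintegral_add_left (hK.const_mul 2),
      lintegral_const_mul _ hK, h1, h2] at h3
    simp only [lintegral_const, measure_univ, mul_one] at h3
    have h6 : (1 : ENNReal) + 1 = 2 + 0 := by norm_num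
    rw [h6] at h3
    exact ((ENNReal.add_right_inj (by simp)).1 h3).symm
  rw [lintegral_eq_zero_iff (by fun_prop)] at hD
  filter_upwards [hD, hfin] with x hx hfx
  have h7 : ((K x).toReal - 1) ^ 2 ≤ 0 := by
    simpa [ENNReal.ofReal_eq_zero] using hx
  have h8 : (K x).toReal = 1 := by nlinarith
  rw [← ENNReal.ofReal_toReal hfx.ne, h8, ENNReal.ofReal_one]

open Classical in
/-- The kernel density. -/
noncomputable def sk {k : ℕ} (F : SimpleGraph (Fin k)) (κ : ℝ → ℝ → ℝ) : ENNReal :=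
  ∫⁻ x in Set.univ.pi (fun _ : Fin k => Set.Icc (0 : ℝ) 1),
    ∏ i : Fin k, ∏ j : Fin k, (if i < j ∧ F.Adj i j then ENNReal.ofReal (κ (x i) (x j)) else 1)

/-- path -/
def P3 : SimpleGraph (Fin 3) := SimpleGraph.fromRel (fun _ j => j = 2)

/-- 4-cycle -/
def C4 : SimpleGraph (Fin 4) := SimpleGraph.fromRel (fun i j => i.val < 2 ∧ 2 ≤ j.val)

instance : DecidableRel P3.Adj := by unfold P3; infer_instance
instance : DecidableRel C4.Adj := by unfold C4; infer_instance

variable (κ : ℝ → ℝ → ℝ)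

/-- the square -/
noncomputable def sq (x : ℝ × ℝ) : ENNReal :=
  ∫⁻ z, ENNReal.ofReal (κ x.1 z) * ENNReal.ofReal (κ x.2 z) ∂nu

lemma meas1 (hκ : Measurable (Function.uncurry κ)) {α : Type} [MeasurableSpace α] (f g : α → ℝ)
    (hf : Measurable f) (hg : Measurable g) :
    Measurable (fun a => ENNReal.ofReal (κ (f a) (g a))) :=
  (hκ.comp (hf.prodMk hg)).ennreal_ofReal

lemma sq_meas (hκ : Measurable (Function.uncurry κ)) : Measurable (sq κ) := by
  unfold sq
  apply Measurable.lintegral_prod_right' (f := fun p : (ℝ × ℝ) × ℝ =>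
    ENNReal.ofReal (κ p.1.1 p.2) * ENNReal.ofReal (κ p.1.2 p.2))
  exact (meas1 κ hκ _ _ (by fun_prop) (by fun_prop)).mul (meas1 κ hκ _ _ (by fun_prop) (by fun_prop))

lemma sk_meas (hκ : Measurable (Function.uncurry κ)) {k : ℕ} (F : SimpleGraph (Fin k))
    [DecidableRel F.Adj] :
    Measurable (fun x : Fin k → ℝ => ∏ i : Fin k, ∏ j : Fin k,
      (if i < j ∧ F.Adj i j then ENNReal.ofReal (κ (x i) (x j)) else 1)) := by
  apply Finset.measurable_prod
  intro i _
  apply Finset.measurable_prod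
  intro j _
  split_ifs
  · exact meas1 κ hκ _ _ (by fun_prop) (by fun_prop)
  · exact measurable_const

lemma meas_cons (k : ℕ) (a : ℝ) :
    Measurable (fun x : Fin k → ℝ => (Fin.cons a x : Fin (k + 1) → ℝ)) := by
  rw [measurable_pi_iff]
  intro i
  refine Fin.cases ?_ ?_ i
  · simp
  · intro j
    simp only [Fin.cons_succ]
    exact measurable_pi_apply j

lemma cube_one (f : (Fin 1 → ℝ) → ENNReal) (hf : Measurable f) :
    ∫⁻ x, f x ∂(cube 1) = ∫⁻ a, f (Fin.cons a default) ∂nu := by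
  rw [cube_succ _ _ hf]
  apply lintegral_congr
  intro a
  rw [cube_zero]

lemma cube_two (f : (Fin 2 → ℝ) → ENNReal) (hf : Measurable f) :
    ∫⁻ x, f x ∂(cube 2) = ∫⁻ a, ∫⁻ b, f (Fin.cons a (Fin.cons b default)) ∂nu ∂nu := by
  rw [cube_succ _ _ hf]
  apply lintegral_congr
  intro a
  exact cube_one _ (hf.comp (meas_cons _ a))

lemma cube_three (f : (Fin 3 → ℝ) → ENNReal) (hf : Measurable f) :
    ∫⁻ x, f x ∂(cube 3) =
      ∫⁻ a, ∫⁻ b, ∫⁻ c, f (Fin.cons a (Fin.cons b (Fin.cons c default))) ∂nu ∂nu ∂nu := by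
  rw [cube_succ _ _ hf]
  apply lintegral_congr
  intro a
  exact cube_two _ (hf.comp (meas_cons _ a))

lemma cube_four (f : (Fin 4 → ℝ) → ENNReal) (hf : Measurable f) :
    ∫⁻ x, f x ∂(cube 4) =
      ∫⁻ a, ∫⁻ b, ∫⁻ c, ∫⁻ d,
        f (Fin.cons a (Fin.cons b (Fin.cons c (Fin.cons d default)))) ∂nu ∂nu ∂nu ∂nu := by
  rw [cube_succ _ _ hf]
  apply lintegral_congr
  intro a
  exact cube_three _ (hf.comp (meas_cons _ a))

lemma sk_K2 (hκ : Measurable (Function.uncurry κ)) :
    sk (⊤ : SimpleGraph (Fin 2)) κ = ∫⁻ x, ENNReal.ofReal (κ x.1 x.2) ∂(nu.prod nu) := by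
  unfold sk
  rw [cube_eq, cube_two _ (by convert sk_meas κ hκ ⊤),
    lintegral_prod _ (meas1 κ hκ _ _ (by fun_prop) (by fun_prop)).aemeasurable]
  apply lintegral_congr
  intro a
  apply lintegral_congr
  intro b
  simp [Fin.prod_univ_succ]

lemma sk_P3 (hκ : Measurable (Function.uncurry κ)) :
    sk P3 κ = ∫⁻ x, sq κ x ∂(nu.prod nu) := by
  unfold sk
  rw [cube_eq, cube_three _ (by convert sk_meas κ hκ P3), lintegral_prod _ (sq_meas κ hκ).aemeasurable]
  apply lintegral_congr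
  intro a
  apply lintegral_congr
  intro b
  unfold sq
  apply lintegral_congr
  intro c
  simp [Fin.prod_univ_succ, P3]

lemma sk_K3 (hκ : Measurable (Function.uncurry κ)) :
    sk (⊤ : SimpleGraph (Fin 3)) κ = ∫⁻ x, ENNReal.ofReal (κ x.1 x.2) * sq κ x ∂(nu.prod nu) := by
  unfold sk
  rw [cube_eq, cube_three _ (by convert sk_meas κ hκ ⊤),
    lintegral_prod (fun x : ℝ × ℝ => ENNReal.ofReal (κ x.1 x.2) * sq κ x)
      ((meas1 κ hκ _ _ (by fun_prop) (by fun_prop)).mul (sq_meas κ hκ)).aemeasurable]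
  apply lintegral_congr
  intro a
  apply lintegral_congr
  intro b
  unfold sq
  rw [← lintegral_const_mul]
  · apply lintegral_congr
    intro c
    simp [Fin.prod_univ_succ, mul_assoc]
  · exact (meas1 κ hκ _ _ (by fun_prop) (by fun_prop)).mul (meas1 κ hκ _ _ (by fun_prop) (by fun_prop))

lemma sk_C4 (hκ : Measurable (Function.uncurry κ)) :
    sk C4 κ = ∫⁻ x, sq κ x ^ 2 ∂(nu.prod nu) := by
  unfold sk
  rw [cube_eq, cube_four _ (by convert sk_meas κ hκ C4),
    lintegral_prod _ ((sq_meas κ hκ).pow_const 2).aemeasurable]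
  apply lintegral_congr
  intro a
  apply lintegral_congr
  intro b
  have hm : Measurable (fun z => ENNReal.ofReal (κ a z) * ENNReal.ofReal (κ b z)) :=
    (meas1 κ hκ _ _ (by fun_prop) (by fun_prop)).mul (meas1 κ hκ _ _ (by fun_prop) (by fun_prop))
  unfold sq
  simp only
  rw [pow_two, ← lintegral_mul_const _ hm]
  apply lintegral_congr
  intro c
  rw [← lintegral_const_mul _ hm]
  apply lintegral_congr
  intro d
  simp [Fin.prod_univ_succ, C4]
  ring

/-- Kernels of this kind do not exist. -/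
theorem no_kernel (hκ : Measurable (Function.uncurry κ))
    (h : ∀ (k : ℕ) (F : SimpleGraph (Fin k)),
      sk F κ = ENNReal.ofReal (Real.exp (-(nt F : ℝ)))) : False := by
  classical
  have hnt : ∀ {k : ℕ} (F : SimpleGraph (Fin k)),
      (∀ a b c, F.Adj a b → F.Adj a c → ¬ F.Adj b c) → nt F = 0 := by
    intro k F hF
    unfold nt
    rw [Set.ncard_eq_zero (Set.toFinite _), Set.eq_empty_iff_forall_notMem]
    intro s hs
    rw [Set.mem_ofPred_eq, SimpleGraph.is3Clique_iff] at hs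
    obtain ⟨a, b, c, hab, hac, hbc, _⟩ := hs
    exact hF a b c hab hac hbc
  have h2 : sk (⊤ : SimpleGraph (Fin 2)) κ = 1 := by
    rw [h, hnt]
    · simp
    · decide
  have h3 : sk P3 κ = 1 := by
    rw [h, hnt]
    · simp
    · decide
  have h4 : sk C4 κ = 1 := by
    rw [h, hnt]
    · simp
    · decide
  rw [sk_K2 κ hκ] at h2
  rw [sk_P3 κ hκ] at h3
  rw [sk_C4 κ hκ] at h4
  have h5 := eq_one_of_moments (nu.prod nu) (sq κ) (sq_meas κ hκ) h3 h4
  have h6 : sk (⊤ : SimpleGraph (Fin 3)) κ = 1 := by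
    rw [sk_K3 κ hκ, ← h2]
    apply lintegral_congr_ae
    filter_upwards [h5] with x hx
    rw [hx, mul_one]
  have h7 : nt (⊤ : SimpleGraph (Fin 3)) = 1 := by
    unfold nt
    rw [Set.ncard_eq_one]
    refine ⟨univ, ?_⟩
    ext s
    rw [Set.mem_ofPred_eq, Set.mem_singleton_iff]
    constructor
    · intro hs
      exact Finset.eq_univ_of_card s (by rw [hs.card_eq]; simp)
    · rintro rfl
      constructor
      · intro a _ b _ hab
        exact hab
      · simp
  rw [h, h7] at h6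
  have h8 : Real.exp (-((1 : ℕ) : ℝ)) < 1 := by
    rw [Real.exp_lt_one_iff]
    norm_num
  have h9 : ENNReal.ofReal (Real.exp (-((1 : ℕ) : ℝ))) < 1 := by
    rw [← ENNReal.ofReal_one]
    exact (ENNReal.ofReal_lt_ofReal_iff one_pos).2 h8
  exact h9.ne h6

end Pool.Agent.W114.TD
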